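import Mathlib

namespace Pool.Agent.Lib.MP_b05c5f_co

/-- A finite simple graph, bundled with its vertex type. -/
structure FinGraph : Type 1 where
  V : Type
  fin : Finite V
  G : SimpleGraph V

/-- The subgraph induced on a set of vertices. -/
def FinGraph.induce (X : FinGraph) (S : Set X.V) : FinGraph :=
  ⟨S, haveI := X.fin; inferInstance, X.G.induce S⟩

/-- The disjoint union of two graphs. -/
def FinGraph.sum (X Y : FinGraph) : FinGraph :=
  ⟨X.V ⊕ Y.V, haveI := X.fin; haveI := Y.fin; inferInstance, X.G.sum Y.G⟩

/-- The one-vertex graph. -/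
def K1 : FinGraph := ⟨Unit, inferInstance, ⊥⟩

/-- A nontrivial additive hereditary property: closed under passing to graphs isomorphic to
subgraphs, closed under disjoint unions, contains the one-vertex graph, misses some graph. -/
structure IsNontrivAddHered (P : Set FinGraph) : Prop where
  hered : ∀ X Y : FinGraph, Y.G.IsContained X.G → X ∈ P → Y ∈ P
  add : ∀ X Y : FinGraph, X ∈ P → Y ∈ P → X.sum Y ∈ P
  k1 : K1 ∈ P
  ne_univ : P ≠ Set.univ

/-- The acyclic product: the vertex set splits into `S` and its complement, which induce graphs
of `P` and `Q`, and the edges between the two parts form a forest. -/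
def odot (P Q : Set FinGraph) : Set FinGraph :=
  {X | ∃ S : Set X.V, X.induce S ∈ P ∧ X.induce Sᶜ ∈ Q ∧ (X.G.between S Sᶜ).IsAcyclic}

/-- Edgeless graphs. -/
def edgeless : Set FinGraph := {X | X.G = ⊥}

/-- Outerplanar graphs: the vertices can be put at distinct points of a line (equivalently of a
circle) so that no two edges, drawn on one side of it, cross. -/
def outerplanar : Set FinGraph :=
  {X | ∃ f : X.V → ℝ, Function.Injective f ∧
    ∀ a b c d, X.G.Adj a b → X.G.Adj c d → ¬ (f a < f c ∧ f c < f b ∧ f b < f d)}

/-- Vertices of the rooted tree of fans: rim vertices `rim l` (the root is `rim []`), and for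
each rim vertex `rim l` and each `k` the centre `ctr l k` of the `k`-th fan hanging at it. -/
inductive TV : Type where
  | rim (l : List (ℕ × ℕ)) : TV
  | ctr (l : List (ℕ × ℕ)) (k : ℕ) : TV

/-- Edges of the rooted tree of fans: the `k`-th fan at `rim l` has the one-way infinite rim path
`rim l, rim ((k,0) :: l), rim ((k,1) :: l), ...` and its centre `ctr l k` is joined to all of it. -/
inductive TE : TV → TV → Prop where
  | root (l k) : TE (.ctr l k) (.rim l)
  | spoke (l k j) : TE (.ctr l k) (.rim ((k, j) :: l))
  | first (l k) : TE (.rim l) (.rim ((k, 0) :: l))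
  | next (l k j) : TE (.rim ((k, j) :: l)) (.rim ((k, j + 1) :: l))

/-- The rooted tree of fans. -/
def fanTree : SimpleGraph TV := SimpleGraph.fromRel TE

/-- Finite graphs isomorphic to a subgraph of the rooted tree of fans. -/
def rootedFans : Set FinGraph := {X | X.G.IsContained fanTree}

end Pool.Agent.Lib.MP_b05c5f_co
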