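import Pool.Agent.Lib.MP_b05c5f_co.Tree

namespace Pool.Agent.Lib.MP_b05c5f_co

open SimpleGraph

/-- the dyadic model of the universal outerplanar graph -/
def U : SimpleGraph ℝ where
  Adj x y := ∃ (k : ℕ) (a : ℤ), (x = a / 2 ^ k ∧ y = (a + 1) / 2 ^ k) ∨
    (y = a / 2 ^ k ∧ x = (a + 1) / 2 ^ k)
  symm.symm := fun _ _ ⟨k, a, h⟩ => ⟨k, a, h.symm⟩
  loopless.irrefl := by
    rintro x ⟨k, a, ⟨h1, h2⟩ | ⟨h1, h2⟩⟩ <;>
    · rw [h1, div_left_inj' (by positivity)] at h2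
      linarith

theorem U_mid {x y : ℝ} (h : U.Adj x y) : U.Adj x ((x + y) / 2) := by
  obtain ⟨k, a, ⟨rfl, rfl⟩ | ⟨rfl, rfl⟩⟩ := h
  · refine ⟨k + 1, 2 * a, Or.inl ⟨?_, ?_⟩⟩ <;> push_cast <;> field_simp <;> ring
  · refine ⟨k + 1, 2 * a + 1, Or.inr ⟨?_, ?_⟩⟩ <;> push_cast <;> field_simp <;> ring

theorem U_mid' {x y : ℝ} (h : U.Adj x y) : U.Adj y ((x + y) / 2) := by
  rw [add_comm]; exact U_mid h.symm

theorem no_between {k l : ℕ} (h : l ≤ k) (a c : ℤ) :
    ¬ ((a : ℝ) / 2 ^ k < c / 2 ^ l ∧ (c : ℝ) / 2 ^ l < (a + 1) / 2 ^ k) := by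
  obtain ⟨n, rfl⟩ := Nat.exists_eq_add_of_le h
  have e : (c : ℝ) / 2 ^ l = ((c * 2 ^ n : ℤ) : ℝ) / 2 ^ (l + n) := by
    push_cast; field_simp; ring
  rw [e, div_lt_div_iff_of_pos_right (by positivity), div_lt_div_iff_of_pos_right (by positivity)]
  rintro ⟨h1, h2⟩
  have h1' : a < c * 2 ^ n := by exact_mod_cast h1
  have h2' : c * 2 ^ n < a + 1 := by exact_mod_cast h2
  omega

theorem U_lt {x y : ℝ} (h : U.Adj x y) (hxy : x < y) :
    ∃ (k : ℕ) (a : ℤ), x = a / 2 ^ k ∧ y = (a + 1) / 2 ^ k := by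
  obtain ⟨k, a, h | ⟨rfl, rfl⟩⟩ := h
  · exact ⟨k, a, h⟩
  · rw [div_lt_div_iff_of_pos_right (by positivity)] at hxy
    linarith

theorem U_noncross (a b c d : ℝ) (h1 : U.Adj a b) (h2 : U.Adj c d) :
    ¬ (a < c ∧ c < b ∧ b < d) := by
  rintro ⟨i1, i2, i3⟩
  obtain ⟨k, p, rfl, rfl⟩ := U_lt h1 (i1.trans i2)
  obtain ⟨l, q, rfl, rfl⟩ := U_lt h2 (i2.trans i3)
  rcases le_total l k with h | h
  · exact no_between h p q ⟨i1, i2⟩
  · refine no_between h q (p + 1) ⟨?_, ?_⟩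
    · push_cast; exact i2
    · push_cast; exact i3

theorem U01 : U.Adj 0 1 := ⟨0, 0, Or.inl ⟨by simp, by simp⟩⟩

/-- finite induced subgraphs of the dyadic graph -/
def Ufin (s : Finset ℝ) : FinGraph := ⟨(s : Set ℝ), inferInstance, U.induce (s : Set ℝ)⟩

theorem Ufin_outer (s : Finset ℝ) : Ufin s ∈ outerplanar :=
  ⟨Subtype.val, Subtype.val_injective, fun a b c d h1 h2 => U_noncross a.1 b.1 c.1 d.1 h1 h2⟩

/-- every finite graph with a copy inside `S` belongs to `Q` -/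
def Sub (S : Set ℝ) (Q : Set FinGraph) : Prop :=
  ∀ (H : FinGraph) (φ : H.V → ℝ), Function.Injective φ → (∀ v, φ v ∈ S) →
    (∀ u v, H.G.Adj u v → U.Adj (φ u) (φ v)) → H ∈ Q

theorem compact {P Q : Set FinGraph} (hP : IsNontrivAddHered P) (hQ : IsNontrivAddHered Q)
    (h : outerplanar ⊆ odot P Q) :
    ∃ S : Set ℝ, Sub S P ∧ Sub Sᶜ Q ∧ (U.between S Sᶜ).IsAcyclic := by
  classical
  choose T hT using fun s => h (Ufin_outer s)
  obtain ⟨χ, hχ⟩ := Finset.rado_selection (β := fun _ : ℝ => Prop)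
    (fun s x => ∃ hx : x ∈ (s : Set ℝ), (⟨x, hx⟩ : (Ufin s).V) ∈ T s)
  refine ⟨{x | χ x}, ?_, ?_, ?_⟩
  · intro H φ hφ hS hadj
    have := H.fin
    have := Fintype.ofFinite H.V
    obtain ⟨t, hst, ht⟩ := hχ (Finset.univ.image φ)
    have hm : ∀ v, φ v ∈ Finset.univ.image φ := fun v => by simp
    have h1 : ∀ v, (⟨φ v, hst (hm v)⟩ : (Ufin t).V) ∈ T t := by
      intro v
      have h2 : χ (φ v) := hS v
      rw [ht _ (hm v)] at h2
      exact h2.2
    refine hP.hered ((Ufin t).induce (T t)) H ⟨⟨⟨fun v => ⟨⟨φ v, hst (hm v)⟩, h1 v⟩, ?_⟩, ?_⟩⟩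
      (hT t).1
    · intro u v huv
      exact hadj u v huv
    · intro u v e
      exact hφ (congrArg (fun z : ((Ufin t).induce (T t)).V => z.1.1) e)
  · intro H φ hφ hS hadj
    have := H.fin
    have := Fintype.ofFinite H.V
    obtain ⟨t, hst, ht⟩ := hχ (Finset.univ.image φ)
    have hm : ∀ v, φ v ∈ Finset.univ.image φ := fun v => by simp
    have h1 : ∀ v, (⟨φ v, hst (hm v)⟩ : (Ufin t).V) ∈ (T t)ᶜ := by
      intro v hv
      have h2 : ¬ χ (φ v) := hS v
      rw [ht _ (hm v)] at h2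
      exact h2 ⟨_, hv⟩
    refine hQ.hered ((Ufin t).induce (T t)ᶜ) H ⟨⟨⟨fun v => ⟨⟨φ v, hst (hm v)⟩, h1 v⟩, ?_⟩, ?_⟩⟩
      (hT t).2.1
    · intro u v huv
      exact hadj u v huv
    · intro u v e
      exact hφ (congrArg (fun z : ((Ufin t).induce (T t)ᶜ).V => z.1.1) e)
  · apply acyclic_of_finite
    intro s
    obtain ⟨t, hst, ht⟩ := hχ s
    have key : ∀ v : (s : Set ℝ), χ v.1 ↔ (⟨v.1, hst v.2⟩ : (Ufin t).V) ∈ T t := by
      intro v
      rw [ht _ v.2]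
      exact ⟨fun h => h.2, fun h => ⟨_, h⟩⟩
    refine IsAcyclic.comap (G' := (Ufin t).G.between (T t) (T t)ᶜ)
      ⟨fun v => ⟨v.1, hst v.2⟩, ?_⟩ ?_ (hT t).2.2
    · rintro u v ⟨huv, h⟩
      refine ⟨huv, ?_⟩
      rcases h with h | h
      · exact Or.inl ⟨(key u).1 h.1, fun h' => h.2 ((key v).2 h')⟩
      · exact Or.inr ⟨fun h' => h.1 ((key u).2 h'), (key v).1 h.2⟩
    · intro u v e
      exact Subtype.ext (congrArg (fun z : (Ufin t).V => z.1) e)

theorem Sub.ufin {S Q} (h : Sub S Q) (s : Finset ℝ) (hs : ∀ x ∈ s, x ∈ S) : Ufin s ∈ Q :=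
  h _ Subtype.val Subtype.val_injective (fun v => hs _ v.2) (fun _ _ h => h)

/-- centres of five-vertex fans inside one colour class are never adjacent -/
theorem F1S {P Q : Set FinGraph} (hP : IsNontrivAddHered P) (hQ : IsNontrivAddHered Q)
    (hle : odot P Q ⊆ odot edgeless rootedFans) {S} (hS : Sub S Q) {u v : ℝ} (hu : u ∈ S)
    (hv : v ∈ S) (huv : U.Adj u v) (cu : Cn U S u) (cv : Cn U S v) : False := by
  classical
  obtain ⟨a, b, c, d, ha, hb, hc, hd, va, vb, vc, vd, ab, bc, cd, ac, ad, bd⟩ := cu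
  obtain ⟨a', b', c', d', ha', hb', hc', hd', va', vb', vc', vd', ab', bc', cd', ac', ad', bd'⟩ := cv
  let s : Finset ℝ := {u, v, a, b, c, d, a', b', c', d'}
  have hs : Ufin s ∈ Q := hS.ufin s (by
    intro x hx
    simp only [s, Finset.mem_insert, Finset.mem_singleton] at hx
    rcases hx with h | h | h | h | h | h | h | h | h | h <;> rw [h] <;> assumption)
  obtain ⟨I, ψ, sp⟩ := exists_split (hle (join_mem hP hQ hP.k1 hs (fun _ => ())))
  let e : ∀ x, x ∈ s → (joinF K1 (Ufin s) (fun _ => ())).V := fun x hx => Sum.inr ⟨x, hx⟩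
  let z : (joinF K1 (Ufin s) (fun _ => ())).V := Sum.inl ()
  have ez : ∀ x hx, (joinF K1 (Ufin s) (fun _ => ())).G.Adj z (e x hx) := fun _ _ => rfl
  have ee : ∀ {x y} hx hy, U.Adj x y → (joinF K1 (Ufin s) (fun _ => ())).G.Adj (e x hx) (e y hy) :=
    fun _ _ h => h
  have en : ∀ {x y} hx hy, x ≠ y → e x hx ≠ e y hy :=
    fun _ _ h h' => h (congrArg Subtype.val (Sum.inr.inj h'))
  have mu : u ∈ s := by simp [s]
  have mv : v ∈ s := by simp [s]
  have ma : a ∈ s := by simp [s]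
  have mb : b ∈ s := by simp [s]
  have mc : c ∈ s := by simp [s]
  have md : d ∈ s := by simp [s]
  have ma' : a' ∈ s := by simp [s]
  have mb' : b' ∈ s := by simp [s]
  have mc' : c' ∈ s := by simp [s]
  have md' : d' ∈ s := by simp [s]
  by_cases hz : z ∈ I
  · have hn : ∀ x hx, e x hx ∉ I := fun x hx h => sp.indep _ _ hz h (ez x hx)
    exact sp.S2 (hn u mu) (hn v mv) (ee _ _ huv)
      ⟨e a ma, e b mb, e c mc, e d md, hn _ _, hn _ _, hn _ _, hn _ _, ee _ _ va, ee _ _ vb,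
        ee _ _ vc, ee _ _ vd, ee _ _ ab, ee _ _ bc, ee _ _ cd, en _ _ ac, en _ _ ad, en _ _ bd⟩
      ⟨e a' ma', e b' mb', e c' mc', e d' md', hn _ _, hn _ _, hn _ _, hn _ _, ee _ _ va',
        ee _ _ vb', ee _ _ vc', ee _ _ vd', ee _ _ ab', ee _ _ bc', ee _ _ cd', en _ _ ac',
        en _ _ ad', en _ _ bd'⟩
  · by_cases hu' : e u mu ∈ I
    · have hv' : e v mv ∉ I := fun h => sp.indep _ _ hu' h (ee _ _ huv)
      exact sp.S1 hz hv' (ez _ _) (ez a' ma') (ez b' mb') (ez c' mc') (ez d' md') (ee _ _ va')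
        (ee _ _ vb') (ee _ _ vc') (ee _ _ vd') (en _ _ ab'.ne) (en _ _ ac') (en _ _ ad')
        (en _ _ bc'.ne) (en _ _ bd') (en _ _ cd'.ne)
    · exact sp.S1 hz hu' (ez _ _) (ez a ma) (ez b mb) (ez c mc) (ez d md) (ee _ _ va)
        (ee _ _ vb) (ee _ _ vc) (ee _ _ vd) (en _ _ ab.ne) (en _ _ ac) (en _ _ ad)
        (en _ _ bc.ne) (en _ _ bd) (en _ _ cd.ne)

theorem Split.S3 {V : Type*} {G : SimpleGraph V} {I ψ} (s : Split G I ψ) {x z a b c d : V}
    (hx : x ∉ I) (h : G.Adj x z)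
    (xa : G.Adj x a) (xb : G.Adj x b) (xc : G.Adj x c) (xd : G.Adj x d)
    (ua : G.Adj z a) (ub : G.Adj z b) (uc : G.Adj z c) (ud : G.Adj z d)
    (ab : G.Adj a b) (bc : G.Adj b c) (cd : G.Adj c d) (ac : a ≠ c) (ad : a ≠ d) (bd : b ≠ d) :
    Cn G Iᶜ x := by
  by_cases hz : z ∈ I
  · exact ⟨a, b, c, d, fun h => s.indep _ _ hz h ua, fun h => s.indep _ _ hz h ub,
      fun h => s.indep _ _ hz h uc, fun h => s.indep _ _ hz h ud, xa, xb, xc, xd, ab, bc, cd, ac,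
      ad, bd⟩
  · exact (s.S1 hx hz h xa xb xc xd ua ub uc ud ab.ne ac ad bc.ne bd cd.ne).elim

/-- a triangle in one class and a five-vertex fan in the other are impossible -/
theorem both {P Q : Set FinGraph} (hP : IsNontrivAddHered P) (hQ : IsNontrivAddHered Q)
    (hle : odot P Q ⊆ odot edgeless rootedFans) {S T} (hS : Sub S P) (hT : Sub T Q) {x y w : ℝ}
    (hx : x ∈ S) (hy : y ∈ S) (hw : w ∈ S) (xy : U.Adj x y) (xw : U.Adj x w) (yw : U.Adj y w)
    {z : ℝ} (hz : z ∈ T) (cz : Cn U T z) : False := by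
  classical
  obtain ⟨a, b, c, d, ha, hb, hc, hd, va, vb, vc, vd, ab, bc, cd, ac, ad, bd⟩ := cz
  let s : Finset ℝ := {x, y, w}
  let t : Finset ℝ := {z, a, b, c, d}
  have hs : Ufin s ∈ P := hS.ufin s (by
    intro x hx
    simp only [s, Finset.mem_insert, Finset.mem_singleton] at hx
    rcases hx with h | h | h <;> rw [h] <;> assumption)
  have ht : Ufin t ∈ Q := hT.ufin t (by
    intro x hx
    simp only [t, Finset.mem_insert, Finset.mem_singleton] at hx
    rcases hx with h | h | h | h | h <;> rw [h] <;> assumption)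
  have mx : x ∈ s := by simp [s]
  have my : y ∈ s := by simp [s]
  have mw : w ∈ s := by simp [s]
  have mz : z ∈ t := by simp [t]
  have ma : a ∈ t := by simp [t]
  have mb : b ∈ t := by simp [t]
  have mc : c ∈ t := by simp [t]
  have md : d ∈ t := by simp [t]
  let Y : FinGraph := ((Ufin t).sum (Ufin t)).sum (Ufin t)
  have hY : Y ∈ Q := hQ.add _ _ (hQ.add _ _ ht ht) ht
  let f : Y.V → (Ufin s).V :=
    Sum.elim (Sum.elim (fun _ => ⟨x, mx⟩) (fun _ => ⟨y, my⟩)) (fun _ => ⟨w, mw⟩)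
  obtain ⟨I, ψ, sp⟩ := exists_split (hle (join_mem hP hQ hs hY f))
  have key : ∀ (p : (Ufin s).V) (ι : (Ufin t).V → Y.V), Function.Injective ι →
      (∀ u v, (Ufin t).G.Adj u v → Y.G.Adj (ι u) (ι v)) → (∀ u, f (ι u) = p) →
      (Sum.inl p : (joinF (Ufin s) Y f).V) ∉ I → Cn (joinF (Ufin s) Y f).G Iᶜ (Sum.inl p) := by
    intro p ι hι hadj hf hp
    have en : ∀ {u v : ℝ} (hu : u ∈ t) (hv : v ∈ t), u ≠ v →
        (Sum.inr (ι ⟨u, hu⟩) : (joinF (Ufin s) Y f).V) ≠ Sum.inr (ι ⟨v, hv⟩) :=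
      fun _ _ h h' => h (congrArg Subtype.val (hι (Sum.inr.inj h')))
    exact sp.S3 (z := Sum.inr (ι ⟨z, mz⟩)) (a := Sum.inr (ι ⟨a, ma⟩)) (b := Sum.inr (ι ⟨b, mb⟩))
      (c := Sum.inr (ι ⟨c, mc⟩)) (d := Sum.inr (ι ⟨d, md⟩)) hp (hf _) (hf _) (hf _) (hf _) (hf _)
      (hadj _ _ va) (hadj _ _ vb) (hadj _ _ vc) (hadj _ _ vd) (hadj _ _ ab) (hadj _ _ bc)
      (hadj _ _ cd) (en _ _ ac) (en _ _ ad) (en _ _ bd)
  have k1 := key ⟨x, mx⟩ (fun u => Sum.inl (Sum.inl u))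
    (fun _ _ h => Sum.inl.inj (Sum.inl.inj h)) (fun _ _ h => h) (fun _ => rfl)
  have k2 := key ⟨y, my⟩ (fun u => Sum.inl (Sum.inr u))
    (fun _ _ h => Sum.inr.inj (Sum.inl.inj h)) (fun _ _ h => h) (fun _ => rfl)
  have k3 := key ⟨w, mw⟩ (fun u => Sum.inr u) (fun _ _ h => Sum.inr.inj h) (fun _ _ h => h)
    (fun _ => rfl)
  by_cases i1 : (Sum.inl ⟨x, mx⟩ : (joinF (Ufin s) Y f).V) ∈ I
  · have i2 : (Sum.inl ⟨y, my⟩ : (joinF (Ufin s) Y f).V) ∉ I := fun h => sp.indep _ _ i1 h xy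
    have i3 : (Sum.inl ⟨w, mw⟩ : (joinF (Ufin s) Y f).V) ∉ I := fun h => sp.indep _ _ i1 h xw
    exact sp.S2 i2 i3 yw (k2 i2) (k3 i3)
  by_cases i2 : (Sum.inl ⟨y, my⟩ : (joinF (Ufin s) Y f).V) ∈ I
  · have i3 : (Sum.inl ⟨w, mw⟩ : (joinF (Ufin s) Y f).V) ∉ I := fun h => sp.indep _ _ i2 h yw
    exact sp.S2 i1 i3 xw (k1 i1) (k3 i3)
  exact sp.S2 i1 i2 xy (k1 i1) (k2 i2)

/-- an infinite descending strip of triangles inside `S` starting at the edge `x y` -/
def Ray (S : Set ℝ) (x y : ℝ) : Prop :=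
  ∃ N : ℝ → ℝ → Prop, (∀ x y, N x y → U.Adj x y ∧ x ∈ S ∧ y ∈ S ∧
    (N x ((x + y) / 2) ∨ N y ((x + y) / 2))) ∧ N x y

theorem Ray.adj {S x y} (h : Ray S x y) : U.Adj x y := by
  obtain ⟨N, hN, h⟩ := h
  exact (hN _ _ h).1

theorem Ray.left {S x y} (h : Ray S x y) : x ∈ S := by
  obtain ⟨N, hN, h⟩ := h
  exact (hN _ _ h).2.1

theorem Ray.right {S x y} (h : Ray S x y) : y ∈ S := by
  obtain ⟨N, hN, h⟩ := h
  exact (hN _ _ h).2.2.1

theorem Ray.step {S x y} (h : Ray S x y) : Ray S x ((x + y) / 2) ∨ Ray S y ((x + y) / 2) := by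
  obtain ⟨N, hN, h⟩ := h
  rcases (hN _ _ h).2.2.2 with h' | h'
  · exact Or.inl ⟨N, hN, h'⟩
  · exact Or.inr ⟨N, hN, h'⟩

theorem Ray.mid {S x y} (h : Ray S x y) : (x + y) / 2 ∈ S := by
  rcases h.step with h | h <;> exact h.right

theorem ray_of_cross {S : Set ℝ} (hac : (U.between S Sᶜ).IsAcyclic) {x0 y0 : ℝ} (h : U.Adj x0 y0)
    (hx : x0 ∈ S) (hy : y0 ∉ S) (hm : (x0 + y0) / 2 ∈ S) : Ray S x0 ((x0 + y0) / 2) := by
  have hb := isAcyclic_iff_forall_adj_isBridge.1 hac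
    (show (U.between S Sᶜ).Adj x0 y0 from ⟨h, Or.inl ⟨hx, hy⟩⟩)
  rw [isBridge_iff] at hb
  set C' := (U.between S Sᶜ).deleteEdges {s(x0, y0)} with hC'
  have hpos : 0 < |x0 - y0| := abs_pos.2 (sub_ne_zero.2 h.ne)
  have hcross : ∀ x y, U.Adj x y → |x - y| < |x0 - y0| → x ∈ S → y ∉ S → C'.Adj x y := by
    intro x y hxy hlt h1 h2
    rw [hC', deleteEdges_adj]
    refine ⟨⟨hxy, Or.inl ⟨h1, h2⟩⟩, ?_⟩
    simp only [Set.mem_singleton_iff, Sym2.eq_iff]
    rintro (⟨rfl, rfl⟩ | ⟨rfl, rfl⟩)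
    · exact lt_irrefl _ hlt
    · rw [abs_sub_comm] at hlt
      exact lt_irrefl _ hlt
  have half1 : ∀ x y : ℝ, |x - (x + y) / 2| = |x - y| / 2 := by
    intro x y
    rw [show x - (x + y) / 2 = (x - y) / 2 by ring, abs_div, abs_two]
  have half2 : ∀ x y : ℝ, |y - (x + y) / 2| = |x - y| / 2 := by
    intro x y
    rw [show y - (x + y) / 2 = (y - x) / 2 by ring, abs_div, abs_two, abs_sub_comm]
  refine ⟨fun x y => U.Adj x y ∧ |x - y| < |x0 - y0| ∧ x ∈ S ∧ y ∈ S ∧ ¬ C'.Reachable x y, ?_, ?_⟩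
  · rintro x y ⟨hxy, hlt, h1, h2, hr⟩
    refine ⟨hxy, h1, h2, ?_⟩
    have l1 : |x - (x + y) / 2| < |x0 - y0| := by
      rw [half1]; have := abs_nonneg (x - y); linarith
    have l2 : |y - (x + y) / 2| < |x0 - y0| := by
      rw [half2]; have := abs_nonneg (x - y); linarith
    have hmid : (x + y) / 2 ∈ S := by
      by_contra hn
      exact hr ((hcross _ _ (U_mid hxy) l1 h1 hn).reachable.trans
        (hcross _ _ (U_mid' hxy) l2 h2 hn).reachable.symm)
    by_contra hn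
    rw [not_or] at hn
    apply hr
    have r1 : C'.Reachable x ((x + y) / 2) := by
      by_contra h'
      exact hn.1 ⟨U_mid hxy, l1, h1, hmid, h'⟩
    have r2 : C'.Reachable y ((x + y) / 2) := by
      by_contra h'
      exact hn.2 ⟨U_mid' hxy, l2, h2, hmid, h'⟩
    exact r1.trans r2.symm
  · refine ⟨U_mid h, by rw [half1]; linarith, hx, hm, ?_⟩
    intro hr
    apply hb
    refine hr.trans (hcross _ _ (U_mid' h).symm ?_ hm hy).reachable
    rw [abs_sub_comm, half2]; linarith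

theorem cn_turn {S v b} (h : U.Adj v b) (hv : v ∈ S) (hb : b ∈ S)
    (r : Ray S ((v + b) / 2) ((v + (v + b) / 2) / 2)) : Cn U S ((v + b) / 2) := by
  have hne := h.ne
  refine ⟨b, v, (v + (v + b) / 2) / 2, ((v + b) / 2 + (v + (v + b) / 2) / 2) / 2, hb, hv, r.right,
    r.mid, (U_mid' h).symm, (U_mid h).symm, r.adj, U_mid r.adj, h.symm, U_mid (U_mid h),
    U_mid' r.adj, ?_, ?_, ?_⟩ <;>
  · intro e
    apply hne
    linarith

theorem cn_straight {S x y} (h : U.Adj x y) (hy : y ∈ S) (hm : (x + y) / 2 ∈ S)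
    (r : Ray S x ((x + (x + y) / 2) / 2)) : Cn U S x := by
  have hne := h.ne
  refine ⟨y, (x + y) / 2, (x + (x + y) / 2) / 2, (x + (x + (x + y) / 2) / 2) / 2, hy, hm, r.right,
    r.mid, h, U_mid h, r.adj, U_mid r.adj, U_mid' h, U_mid' (U_mid h),
    U_mid' r.adj, ?_, ?_, ?_⟩ <;>
  · intro e
    apply hne
    linarith

theorem Ray.exists_cn {S x y} (h : Ray S x y) : ∃ z ∈ S, Cn U S z := by
  rcases h.step with r | r
  · rcases r.step with r' | r'
    · exact ⟨x, h.left, cn_straight h.adj h.right h.mid r'⟩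
    · exact ⟨_, h.mid, cn_turn h.adj h.left h.right r'⟩
  · rw [add_comm x y] at r
    rcases r.step with r' | r'
    · exact ⟨y, h.right, cn_straight h.adj.symm h.left r.right r'⟩
    · exact ⟨_, r.right, cn_turn h.adj.symm h.right h.left r'⟩

/-- an infinite fan with centre `v` whose rim starts at `b` -/
def M (S : Set ℝ) (v b : ℝ) : Prop := U.Adj v b ∧ b ∈ S ∧ Ray S v ((v + b) / 2) ∧ Cn U S v

/-- the property that fan centres inside `S` are pairwise non-adjacent -/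
def NF (S : Set ℝ) : Prop := ∀ u v, u ∈ S → v ∈ S → U.Adj u v → Cn U S u → Cn U S v → False

theorem M.step {S v b} (hF : NF S) (h : M S v b) : M S v ((v + b) / 2) := by
  obtain ⟨h1, h2, h3, h4⟩ := h
  refine ⟨h3.adj, h3.right, ?_, h4⟩
  rcases h3.step with r | r
  · exact r
  · exact (hF _ _ h3.left h3.right h3.adj h4 (cn_turn h1 h3.left h2 r)).elim

theorem M.iter {S v b} (hF : NF S) (h : M S v b) (j : ℕ) : M S v (v + (b - v) / 2 ^ j) := by
  induction j with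
  | zero => simpa using h
  | succ j ih =>
    have := ih.step hF
    rwa [show (v + (v + (b - v) / 2 ^ j)) / 2 = v + (b - v) / 2 ^ (j + 1) by
      field_simp; ring] at this

theorem U_iter {p q} (h : U.Adj p q) (j : ℕ) : U.Adj p (p + (q - p) / 2 ^ j) := by
  induction j with
  | zero => simpa using h
  | succ j ih =>
    have := U_mid ih
    rwa [show (p + (p + (q - p) / 2 ^ j)) / 2 = p + (q - p) / 2 ^ (j + 1) by
      field_simp; ring] at this

theorem U_iter' {p q} (h : U.Adj p q) (j : ℕ) :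
    U.Adj (p + (q - p) / 2 ^ j) (p + (q - p) / 2 ^ (j + 1)) := by
  have := U_mid' (U_iter h j)
  rwa [show (p + (p + (q - p) / 2 ^ j)) / 2 = p + (q - p) / 2 ^ (j + 1) by
      field_simp; ring] at this

theorem exists_out {S p q} (h : U.Adj p q) (hc : ¬ Cn U S p) (m : ℕ) :
    ∃ m', m ≤ m' ∧ p + (q - p) / 2 ^ m' ∉ S := by
  by_contra hn
  push Not at hn
  apply hc
  have hne : q - p ≠ 0 := sub_ne_zero.2 h.ne.symm
  have inj : ∀ i j : ℕ, i ≠ j → p + (q - p) / 2 ^ i ≠ p + (q - p) / 2 ^ j := by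
    intro i j hij e
    apply hij
    have e1 : (q - p) / 2 ^ i = (q - p) / 2 ^ j := by linarith
    rw [div_eq_div_iff (by positivity) (by positivity)] at e1
    have e2 := mul_left_cancel₀ hne e1
    exact (pow_right_injective₀ (by norm_num) (by norm_num) e2).symm
  exact ⟨_, _, _, _, hn m le_rfl, hn (m + 1) (by omega), hn (m + 2) (by omega),
    hn (m + 3) (by omega), U_iter h _, U_iter h _, U_iter h _, U_iter h _, U_iter' h _,
    U_iter' h _, U_iter' h _, inj _ _ (by omega), inj _ _ (by omega), inj _ _ (by omega)⟩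

theorem fan_of_cross {S : Set ℝ} (hac : (U.between S Sᶜ).IsAcyclic) (hF : NF S) {p r : ℝ}
    (h : U.Adj p r) (hp : p ∈ S) (hr : r ∉ S) (hm : (p + r) / 2 ∈ S) (hc : ¬ Cn U S p) :
    ∃ α β : ℝ, 1 / 8 ≤ α ∧ α ≤ 1 / 2 ∧ 1 / 8 ≤ β ∧ β ≤ 1 / 2 ∧
      M S (p + α * (r - p)) (p + β * (r - p)) ∧ U.Adj p (p + α * (r - p)) ∧
      U.Adj p (p + β * (r - p)) := by
  have R := ray_of_cross hac h hp hr hm
  set y := (p + r) / 2 with hy
  have hpy := R.adj
  rcases R.step with r1 | r1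
  · rcases r1.step with r2 | r2
    · exact (hc (cn_straight hpy hm r1.right r2)).elim
    · have c := cn_turn hpy hp hm r2
      have m0 : M S ((p + y) / 2) p := ⟨r1.adj.symm, hp, by rwa [add_comm _ p], c⟩
      have m1 := m0.step hF
      refine ⟨1 / 4, 1 / 8, by norm_num, by norm_num, by norm_num, by norm_num, ?_, ?_, ?_⟩
      · rwa [show ((p + y) / 2 + p) / 2 = p + 1 / 8 * (r - p) by rw [hy]; ring,
          show (p + y) / 2 = p + 1 / 4 * (r - p) by rw [hy]; ring] at m1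
      · rw [show p + 1 / 4 * (r - p) = (p + y) / 2 by rw [hy]; ring]
        exact r1.adj
      · rw [show p + 1 / 8 * (r - p) = (p + (p + y) / 2) / 2 by rw [hy]; ring]
        exact U_mid r1.adj
  · rw [add_comm p y] at r1
    rcases r1.step with r2 | r2
    · have c := cn_straight hpy.symm hp r1.right r2
      have m0 : M S y p := ⟨hpy.symm, hp, r1, c⟩
      have m1 := m0.step hF
      refine ⟨1 / 2, 1 / 4, by norm_num, by norm_num, by norm_num, by norm_num, ?_, ?_, ?_⟩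
      · rwa [show (y + p) / 2 = p + 1 / 4 * (r - p) by rw [hy]; ring,
          show y = p + 1 / 2 * (r - p) by rw [hy]; ring] at m1
      · rw [show p + 1 / 2 * (r - p) = y by rw [hy]; ring]
        exact hpy
      · rw [show p + 1 / 4 * (r - p) = (p + y) / 2 by rw [hy]; ring]
        exact U_mid hpy
    · have c := cn_turn hpy.symm hm hp r2
      have m0 : M S ((y + p) / 2) y := ⟨r1.adj.symm, hm, by rwa [add_comm _ y], c⟩
      refine ⟨1 / 4, 1 / 2, by norm_num, by norm_num, by norm_num, by norm_num, ?_, ?_, ?_⟩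
      · rwa [show (y + p) / 2 = p + 1 / 4 * (r - p) by rw [hy]; ring,
          show y = p + 1 / 2 * (r - p) by rw [hy]; ring] at m0
      · rw [show p + 1 / 4 * (r - p) = (p + y) / 2 by rw [hy]; ring]
        exact U_mid hpy
      · rw [show p + 1 / 2 * (r - p) = y by rw [hy]; ring]
        exact hpy

theorem embed {V : Type*} (W : SimpleGraph V) (S : Set V) (Sp : Type*) (p : Sp → V)
    (J : Sp → Set V) (c : Sp → ℕ → V) (ch : Sp → ℕ → ℕ → Sp)
    (hp : ∀ s, p s ∈ J s) (hS : ∀ s, p s ∈ S) (hcS : ∀ s k, c s k ∈ S)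
    (a1 : ∀ s k, W.Adj (c s k) (p s)) (a2 : ∀ s k j, W.Adj (c s k) (p (ch s k j)))
    (a3 : ∀ s k, W.Adj (p s) (p (ch s k 0)))
    (a4 : ∀ s k j, W.Adj (p (ch s k j)) (p (ch s k (j + 1))))
    (hsub : ∀ s k j, J (ch s k j) ⊆ J s) (hnp : ∀ s k j, p s ∉ J (ch s k j))
    (hdisj : ∀ s k j k' j' x, x ∈ J (ch s k j) → x ∈ J (ch s k' j') → k = k' ∧ j = j')
    (hc : ∀ s k, c s k ∈ J s) (hcp : ∀ s k, c s k ≠ p s) (hnc : ∀ s k k' j, c s k ∉ J (ch s k' j))
    (hci : ∀ s k k', c s k = c s k' → k = k') (s0 : Sp) :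
    ∃ φ : TV → V, Function.Injective φ ∧ (∀ v, φ v ∈ S) ∧
      ∀ u v, fanTree.Adj u v → W.Adj (φ u) (φ v) := by
  let sp : List (ℕ × ℕ) → Sp := fun l => l.rec s0 (fun a _ s => ch s a.1 a.2)
  have spc : ∀ k j l, sp ((k, j) :: l) = ch (sp l) k j := fun _ _ _ => rfl
  have B : ∀ x l l', x ∈ J (sp l) → x ∈ J (sp l') → l.length = l'.length → l = l' := by
    intro x l
    induction l with
    | nil => intro l' _ _ h; exact (List.length_eq_zero_iff.1 h.symm).symm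
    | cons a l ih =>
      intro l' h1 h2 h
      cases l' with
      | nil => simp at h
      | cons a' l' =>
        obtain ⟨k, j⟩ := a
        obtain ⟨k', j'⟩ := a'
        rw [spc] at h1 h2
        have e := ih l' (hsub _ _ _ h1) (hsub _ _ _ h2) (by simpa using h)
        subst e
        obtain ⟨rfl, rfl⟩ := hdisj _ _ _ _ _ _ h1 h2
        rfl
  have A : ∀ x l', x ∈ J (sp l') → ∀ n, n ≤ l'.length → ∃ l'', l''.length = n ∧ x ∈ J (sp l'') := by
    intro x l'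
    induction l' with
    | nil => intro h n hn; exact ⟨[], by simp at hn; simp [hn], h⟩
    | cons a l ih =>
      intro h n hn
      rcases hn.lt_or_eq with h' | h'
      · obtain ⟨k, j⟩ := a
        rw [spc] at h
        exact ih (hsub _ _ _ h) n (by simp at h'; omega)
      · exact ⟨_, h'.symm, h⟩
  have C : ∀ x l l', x ∈ J (sp l) → (∀ k j, x ∉ J (ch (sp l) k j)) → x ∈ J (sp l') →
      l'.length ≤ l.length := by
    intro x l l' h1 h2 h3
    by_contra hn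
    obtain ⟨l'', e, h4⟩ := A x l' h3 (l.length + 1) (by omega)
    cases l'' with
    | nil => simp at e
    | cons a m =>
      obtain ⟨k, j⟩ := a
      rw [spc] at h4
      have e' := B x m l (hsub _ _ _ h4) h1 (by simpa using e)
      subst e'
      exact h2 _ _ h4
  have D : ∀ x l l', x ∈ J (sp l) → (∀ k j, x ∉ J (ch (sp l) k j)) → x ∈ J (sp l') →
      (∀ k j, x ∉ J (ch (sp l') k j)) → l = l' := fun x l l' h1 h2 h3 h4 =>
    B x l l' h1 h3 (le_antisymm (C x l' l h3 h4 h1) (C x l l' h1 h2 h3))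
  refine ⟨fun v => match v with | .rim l => p (sp l) | .ctr l k => c (sp l) k, ?_, ?_, ?_⟩
  · rintro (l | ⟨l, k⟩) (l' | ⟨l', k'⟩) e <;> simp only at e
    · rw [D _ l l' (hp _) (hnp _) (e ▸ hp _) (e ▸ hnp _)]
    · have := D _ l l' (hp _) (hnp _) (e ▸ hc _ _) (e ▸ hnc _ _)
      subst this
      exact absurd e.symm (hcp _ _)
    · have := D _ l l' (hc _ k) (hnc _ k) (e ▸ hp _) (e ▸ hnp _)
      subst this
      exact absurd e (hcp _ _)
    · have := D _ l l' (hc _ k) (hnc _ k) (e ▸ hc _ _) (e ▸ hnc _ _)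
      subst this
      rw [hci _ _ _ e]
  · rintro (l | ⟨l, k⟩)
    · exact hS _
    · exact hcS _ _
  · have key : ∀ u v, TE u v → W.Adj ((fun v => match v with
        | .rim l => p (sp l) | .ctr l k => c (sp l) k) u) ((fun v => match v with
        | .rim l => p (sp l) | .ctr l k => c (sp l) k) v) := by
      intro u v h
      cases h
      · exact a1 _ _
      · exact a2 _ _ _
      · exact a3 _ _
      · exact a4 _ _ _
    rintro u v ⟨-, h | h⟩
    · exact key _ _ h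
    · exact (key _ _ h).symm

theorem spot_lemma {S : Set ℝ} (hac : (U.between S Sᶜ).IsAcyclic) (hF : NF S)
    (hH : ∀ x y, U.Adj x y → x ∈ S → y ∉ S → (x + y) / 2 ∈ S) {p q : ℝ}
    (h : U.Adj p q) (hp : p ∈ S) (hc : ¬ Cn U S p) :
    ∃ A B lo hi : ℕ → ℝ, (∀ k, 0 < lo k ∧ lo k ≤ A k ∧ A k ≤ hi k ∧ lo k ≤ B k ∧ B k ≤ hi k ∧
      hi k < 1 ∧ M S (p + A k * (q - p)) (p + B k * (q - p)) ∧ U.Adj p (p + A k * (q - p)) ∧
      U.Adj p (p + B k * (q - p))) ∧ ∀ k k', k < k' → hi k' < lo k := by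
  choose nx hnx hout using exists_out h hc
  let m : ℕ → ℕ := fun k => k.rec (nx 0) (fun _ a => nx (a + 3))
  have hm : ∀ k, p + (q - p) / 2 ^ m k ∉ S := by
    intro k
    cases k
    · exact hout _
    · exact hout _
  have hm2 : ∀ k, m k + 3 ≤ m (k + 1) := fun k => hnx _
  have hm3 : ∀ k k', k < k' → m k + 3 ≤ m k' := by
    intro k k' hk
    induction k', hk using Nat.le_induction with
    | base => exact hm2 k
    | succ n _ ih => have := hm2 n; omega
  choose α β h1 h2 h3 h4 h5 h6 h7 using fun k => fan_of_cross hac hF (U_iter h (m k)) hp (hm k)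
    (hH _ _ (U_iter h (m k)) hp (hm k)) hc
  have e : ∀ k (t : ℝ), p + t * (p + (q - p) / 2 ^ m k - p) = p + t / 2 ^ m k * (q - p) := by
    intro k t; ring
  simp only [e] at h5 h6 h7
  refine ⟨fun k => α k / 2 ^ m k, fun k => β k / 2 ^ m k, fun k => 1 / 8 / 2 ^ m k,
    fun k => 1 / 2 / 2 ^ m k, fun k => ⟨by positivity, ?_, ?_, ?_, ?_, ?_, h5 k, h6 k, h7 k⟩, ?_⟩
  · exact div_le_div_of_nonneg_right (h1 k) (by positivity)
  · exact div_le_div_of_nonneg_right (h2 k) (by positivity)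
  · exact div_le_div_of_nonneg_right (h3 k) (by positivity)
  · exact div_le_div_of_nonneg_right (h4 k) (by positivity)
  · have : (1 : ℝ) ≤ 2 ^ m k := one_le_pow₀ (by norm_num)
    rw [div_lt_one (by positivity)]
    linarith
  · intro k k' hk
    have h8 : (2 : ℝ) ^ (m k + 3) ≤ 2 ^ m k' := pow_le_pow_right₀ (by norm_num) (hm3 k k' hk)
    have h9 : (0 : ℝ) < 2 ^ m k := by positivity
    rw [div_lt_div_iff₀ (by positivity) (by positivity)]
    rw [pow_add] at h8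
    linarith

/-- half-open segment from `p` towards `q` -/
def seg (p q : ℝ) : Set ℝ := {x | ∃ t, 0 ≤ t ∧ t < 1 ∧ x = p + t * (q - p)}

theorem seg_child {v b x : ℝ} {j : ℕ}
    (h : x ∈ seg (v + (b - v) / 2 ^ j) (v + (b - v) / 2 ^ (j + 1))) :
    ∃ σ : ℝ, 1 / 2 ^ (j + 1) < σ ∧ σ ≤ 1 / 2 ^ j ∧ x = v + σ * (b - v) := by
  obtain ⟨t, h0, h1, rfl⟩ := h
  refine ⟨(1 - t / 2) / 2 ^ j, ?_, ?_, ?_⟩
  · rw [pow_succ, div_lt_div_iff₀ (by positivity) (by positivity)]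
    have : (0 : ℝ) < 2 ^ j := by positivity
    nlinarith
  · exact div_le_div_of_nonneg_right (by linarith) (by positivity)
  · field_simp; ring

theorem tree_embeds {S : Set ℝ} (hac : (U.between S Sᶜ).IsAcyclic) (hF : NF S)
    (hH : ∀ x y, U.Adj x y → x ∈ S → y ∉ S → (x + y) / 2 ∈ S) {p0 q0 : ℝ}
    (h : U.Adj p0 q0) (hp : p0 ∈ S) (hc : ¬ Cn U S p0) :
    ∃ φ : TV → ℝ, Function.Injective φ ∧ (∀ v, φ v ∈ S) ∧
      ∀ u v, fanTree.Adj u v → U.Adj (φ u) (φ v) := by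
  let Sp := {z : ℝ × ℝ // U.Adj z.1 z.2 ∧ z.1 ∈ S ∧ ¬ Cn U S z.1}
  choose A B lo hi h1 h2 using fun s : Sp => spot_lemma hac hF hH s.2.1 s.2.2.1 s.2.2.2
  let v : Sp → ℕ → ℝ := fun s k => s.1.1 + A s k * (s.1.2 - s.1.1)
  let b : Sp → ℕ → ℝ := fun s k => s.1.1 + B s k * (s.1.2 - s.1.1)
  have hM : ∀ s k, M S (v s k) (b s k) := fun s k => (h1 s k).2.2.2.2.2.2.1
  have hMj : ∀ s k j, M S (v s k) (v s k + (b s k - v s k) / 2 ^ j) :=
    fun s k j => (hM s k).iter hF j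
  let ch : Sp → ℕ → ℕ → Sp := fun s k j =>
    ⟨(v s k + (b s k - v s k) / 2 ^ j, v s k + (b s k - v s k) / 2 ^ (j + 1)),
      U_iter' (hM s k).1 j, (hMj s k j).2.1, fun hc' =>
        hF _ _ (hM s k).2.2.1.left (hMj s k j).2.1 (hMj s k j).1 (hM s k).2.2.2 hc'⟩
  have hd : ∀ s : Sp, s.1.2 - s.1.1 ≠ 0 := fun s => sub_ne_zero.2 s.2.1.ne.symm
  have hAB : ∀ s k, B s k - A s k ≠ 0 := by
    intro s k e
    apply (hM s k).1.ne
    simp only [v, b]
    rw [sub_eq_zero.1 e]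
  have key : ∀ s k j x, x ∈ seg (ch s k j).1.1 (ch s k j).1.2 →
      ∃ σ : ℝ, 1 / 2 ^ (j + 1) < σ ∧ σ ≤ 1 / 2 ^ j ∧ 0 < σ ∧
        lo s k ≤ A s k + σ * (B s k - A s k) ∧ A s k + σ * (B s k - A s k) ≤ hi s k ∧
        x = s.1.1 + (A s k + σ * (B s k - A s k)) * (s.1.2 - s.1.1) := by
    intro s k j x hx
    obtain ⟨σ, s1, s2, s3⟩ := seg_child hx
    have s4 : 0 < σ := lt_trans (by positivity) s1
    have s5 : σ ≤ 1 := s2.trans (by
      rw [div_le_one (by positivity)]; exact one_le_pow₀ (by norm_num))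
    obtain ⟨-, i1, i2, i3, i4, -⟩ := h1 s k
    refine ⟨σ, s1, s2, s4, by nlinarith, by nlinarith, ?_⟩
    rw [s3]
    simp only [v, b]
    ring
  have same : ∀ s k k' (t : ℝ), lo s k ≤ t → t ≤ hi s k → lo s k' ≤ t → t ≤ hi s k' → k = k' := by
    intro s k k' t i1 i2 i3 i4
    rcases lt_trichotomy k k' with hk | hk | hk
    · have := h2 s k k' hk; linarith
    · exact hk
    · have := h2 s k' k hk; linarith
  have canc : ∀ (s : Sp) (t t' : ℝ), s.1.1 + t * (s.1.2 - s.1.1) = s.1.1 + t' * (s.1.2 - s.1.1) →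
      t = t' := fun s t t' e => mul_right_cancel₀ (hd s) (add_left_cancel e)
  refine embed U S Sp (fun s => s.1.1) (fun s => seg s.1.1 s.1.2) v ch ?_ ?_ ?_ ?_ ?_ ?_ ?_ ?_ ?_
    ?_ ?_ ?_ ?_ ?_ ⟨(p0, q0), h, hp, hc⟩
  · exact fun s => ⟨0, le_rfl, one_pos, by simp⟩
  · exact fun s => s.2.2.1
  · exact fun s k => (hM s k).2.2.1.left
  · exact fun s k => (h1 s k).2.2.2.2.2.2.2.1.symm
  · exact fun s k j => (hMj s k j).1
  · intro s k
    have := (h1 s k).2.2.2.2.2.2.2.2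
    simp only [ch, pow_zero, div_one, add_sub_cancel]
    exact this
  · exact fun s k j => U_iter' (hM s k).1 j
  · intro s k j x hx
    obtain ⟨σ, -, -, -, i1, i2, e⟩ := key s k j x hx
    obtain ⟨i3, -, -, -, -, i4, -⟩ := h1 s k
    exact ⟨_, by linarith, by linarith, e⟩
  · intro s k j hx
    obtain ⟨σ, -, -, -, i1, i2, e⟩ := key s k j _ hx
    have := canc s 0 _ (by rw [← e]; ring)
    have := (h1 s k).1
    linarith
  · intro s k j k' j' x hx hx'
    obtain ⟨σ, s1, s2, -, i1, i2, e⟩ := key s k j x hx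
    obtain ⟨σ', s1', s2', -, i1', i2', e'⟩ := key s k' j' x hx'
    have e2 := canc s _ _ (e.symm.trans e')
    have hk : k = k' := same s k k' _ i1 i2 (e2 ▸ i1') (e2 ▸ i2')
    subst hk
    have e3 : σ = σ' := mul_right_cancel₀ (hAB s k) (add_left_cancel e2)
    subst e3
    refine ⟨rfl, ?_⟩
    have l1 := lt_of_lt_of_le s1 s2'
    have l2 := lt_of_lt_of_le s1' s2
    rw [one_div_lt_one_div (by positivity) (by positivity),
      pow_lt_pow_iff_right₀ (by norm_num)] at l1 l2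
    omega
  · intro s k
    obtain ⟨i0, i1, i2, -, -, i4, -⟩ := h1 s k
    exact ⟨A s k, by linarith, by linarith, rfl⟩
  · exact fun s k => (h1 s k).2.2.2.2.2.2.2.1.ne.symm
  · intro s k k' j hx
    obtain ⟨σ, -, -, s4, i1, i2, e⟩ := key s k' j _ hx
    have e2 := canc s _ _ e
    obtain ⟨-, i3, i4, -⟩ := h1 s k
    have hk : k = k' := same s k k' _ i3 i4 (e2 ▸ i1) (e2 ▸ i2)
    subst hk
    have : σ * (B s k - A s k) = 0 := by linarith
    rcases mul_eq_zero.1 this with h' | h'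
    · linarith
    · exact hAB s k h'
  · intro s k k' e
    have e2 := canc s _ _ e
    obtain ⟨-, i3, i4, -⟩ := h1 s k
    obtain ⟨-, i5, i6, -⟩ := h1 s k'
    exact same s k k' _ i3 i4 (e2 ▸ i5) (e2 ▸ i6)

theorem edgeless_sub {P : Set FinGraph} (hP : IsNontrivAddHered P) : edgeless ⊆ P := by
  have key : ∀ n : ℕ, (⟨Fin n, inferInstance, ⊥⟩ : FinGraph) ∈ P := by
    intro n
    induction n with
    | zero =>
      refine hP.hered K1 _ ⟨⟨⟨fun v => v.elim0, ?_⟩, ?_⟩⟩ hP.k1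
      · intro u; exact u.elim0
      · intro u; exact u.elim0
    | succ n ih =>
      refine hP.hered _ _ ⟨⟨⟨fun v => (finSuccEquiv n v).elim (Sum.inr ()) Sum.inl, ?_⟩, ?_⟩⟩
        (hP.add _ _ ih hP.k1)
      · intro u v h; exact h.elim
      · intro u v h
        apply (finSuccEquiv n).injective
        have h' : (finSuccEquiv n u).elim (Sum.inr () : Fin n ⊕ Unit) Sum.inl =
          (finSuccEquiv n v).elim (Sum.inr ()) Sum.inl := h
        revert h'
        cases finSuccEquiv n u <;> cases finSuccEquiv n v <;> simp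
  intro X hX
  have := X.fin
  obtain ⟨n, ⟨e⟩⟩ := Finite.exists_equiv_fin X.V
  refine hP.hered _ X ⟨⟨⟨e, ?_⟩, e.injective⟩⟩ (key n)
  intro u v h
  have hX' : X.G = ⊥ := hX
  rw [hX'] at h
  exact h.elim

theorem side {P Q : Set FinGraph} (hP : IsNontrivAddHered P) (hQ : IsNontrivAddHered Q)
    (hle : odot P Q ⊆ odot edgeless rootedFans) {S : Set ℝ} (hS : Sub S Q)
    (hac : (U.between S Sᶜ).IsAcyclic)
    (hH : ∀ x y, U.Adj x y → x ∈ S → y ∉ S → (x + y) / 2 ∈ S)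
    (hex : ∃ x y, U.Adj x y ∧ x ∈ S) : odot edgeless rootedFans ⊆ odot P Q := by
  have hF : NF S := fun u v hu hv huv cu cv => F1S hP hQ hle hS hu hv huv cu cv
  have hsp : ∃ p q, U.Adj p q ∧ p ∈ S ∧ ¬ Cn U S p := by
    obtain ⟨x, y, hxy, hx⟩ := hex
    have : ∃ y, U.Adj x y ∧ y ∈ S := by
      by_cases hy : y ∈ S
      · exact ⟨y, hxy, hy⟩
      · exact ⟨_, U_mid hxy, hH _ _ hxy hx hy⟩
    obtain ⟨y, hxy, hy⟩ := this
    by_cases hc : Cn U S x
    · exact ⟨y, x, hxy.symm, hy, fun hc' => hF _ _ hx hy hxy hc hc'⟩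
    · exact ⟨x, y, hxy, hx, hc⟩
  obtain ⟨p, q, h, hp, hc⟩ := hsp
  obtain ⟨φ, f1, f2, f3⟩ := tree_embeds hac hF hH h hp hc
  rintro X ⟨T, t1, ⟨ψ⟩, t3⟩
  refine ⟨T, edgeless_sub hP t1, ?_, t3⟩
  exact hS _ (fun v => φ (ψ v)) (f1.comp ψ.injective) (fun v => f2 _)
    (fun u v huv => f3 _ _ (ψ.toHom.map_adj huv))

theorem lower {P Q : Set FinGraph} (hP : IsNontrivAddHered P) (hQ : IsNontrivAddHered Q)
    (h : outerplanar ⊆ odot P Q) (hle : odot P Q ⊆ odot edgeless rootedFans) :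
    odot edgeless rootedFans ⊆ odot P Q := by
  obtain ⟨S, h1, h2, hac⟩ := compact hP hQ h
  have hle' : odot Q P ⊆ odot edgeless rootedFans := (odot_comm Q P).trans hle
  have hac' : (U.between Sᶜ Sᶜᶜ).IsAcyclic := by
    rw [compl_compl, between_comm]; exact hac
  by_cases a1 : ∀ x y, U.Adj x y → x ∈ S → y ∉ S → (x + y) / 2 ∈ S
  · by_cases a2 : ∃ x y, U.Adj x y ∧ x ∈ S
    · exact (side hQ hP hle' h1 hac a1 a2).trans (odot_comm Q P)
    · refine side hP hQ hle h2 hac' ?_ ⟨0, 1, U01, fun h0 => a2 ⟨0, 1, U01, h0⟩⟩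
      intro x y hxy _ hy
      exact absurd ⟨y, x, hxy.symm, not_not.1 hy⟩ a2
  · push Not at a1
    obtain ⟨x, y, hxy, hx, hy, hm⟩ := a1
    refine side hP hQ hle h2 hac' ?_ ⟨y, x, hxy.symm, hy⟩
    intro x' y' hxy' hx' hy' hm'
    have hy'' : y' ∈ S := not_not.1 hy'
    have r1 : Ray S y' ((y' + x') / 2) :=
      ray_of_cross hac hxy'.symm hy'' hx' (by rwa [add_comm])
    have r2 : Ray Sᶜ y ((y + x) / 2) :=
      ray_of_cross hac' hxy.symm hy (fun h' => h' hx) (by rwa [add_comm])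
    obtain ⟨z, hz, cz⟩ := r2.exists_cn
    exact both hP hQ hle h1 h2 r1.left r1.right r1.mid r1.adj (U_mid r1.adj) (U_mid' r1.adj) hz cz

theorem edgeless_good : IsNontrivAddHered edgeless where
  hered := by
    rintro X Y ⟨φ⟩ hX
    have hX' : X.G = ⊥ := hX
    change Y.G = ⊥
    ext u v
    simp only [bot_adj, iff_false]
    intro h
    exact hX'.le (φ.toHom.map_adj h)
  add := by
    intro X Y hX hY
    have hX' : X.G = ⊥ := hX
    have hY' : Y.G = ⊥ := hY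
    change X.G.sum Y.G = ⊥
    rw [hX', hY']
    ext (u | u) (v | v) <;> simp
  k1 := rfl
  ne_univ := by
    intro h
    have : (⟨Bool, inferInstance, ⊤⟩ : FinGraph) ∈ edgeless := by rw [h]; trivial
    have h2 : (⊤ : SimpleGraph Bool) = ⊥ := this
    have h3 : (⊤ : SimpleGraph Bool).Adj true false := by simp
    rw [h2] at h3
    exact h3

/-- shifting the fan tree into the subtree above a child of the root -/
def shift (x : ℕ × ℕ) : TV → TV
  | .rim l => .rim (l ++ [x])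
  | .ctr l k => .ctr (l ++ [x]) k

theorem shift_adj (x : ℕ × ℕ) {u v : TV} (h : fanTree.Adj u v) :
    fanTree.Adj (shift x u) (shift x v) := by
  have key : ∀ u v, TE u v → fanTree.Adj (shift x u) (shift x v) := by
    intro u v h
    cases h
    · exact adj_ctr.2 (Or.inl rfl)
    · exact adj_ctr.2 (Or.inr ⟨_, rfl⟩)
    · exact adj_rim.2 (Or.inl ⟨_, rfl⟩)
    · exact adj_rim.2 (Or.inr (Or.inr (Or.inl ⟨_, _, _, rfl, rfl⟩)))
  obtain ⟨-, h | h⟩ := h
  · exact key _ _ h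
  · exact (key _ _ h).symm

theorem shift_inj {x y : ℕ × ℕ} {u v : TV} (h : shift x u = shift y v) : x = y ∧ u = v := by
  cases u <;> cases v <;> simp only [shift, TV.rim.injEq, TV.ctr.injEq, reduceCtorEq] at h ⊢
  · have := List.append_inj' h rfl
    exact ⟨by simpa using this.2, this.1⟩
  · have := List.append_inj' h.1 rfl
    exact ⟨by simpa using this.2, this.1, h.2⟩

theorem rootedFans_good : IsNontrivAddHered rootedFans where
  hered := fun _ _ h hX => h.trans hX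
  add := by
    rintro X Y ⟨φ⟩ ⟨ψ⟩
    refine ⟨⟨⟨Sum.elim (fun u => shift (0, 0) (φ u)) (fun u => shift (1, 0) (ψ u)), ?_⟩, ?_⟩⟩
    · rintro (u | u) (v | v) h
      · exact shift_adj _ (φ.toHom.map_adj h)
      · exact absurd h (not_adj_sum_inl_inr u v)
      · exact absurd h.symm (not_adj_sum_inl_inr v u)
      · exact shift_adj _ (ψ.toHom.map_adj h)
    · rintro (u | u) (v | v) h
      · exact congrArg Sum.inl (φ.injective (shift_inj h).2)
      · exact absurd (shift_inj h).1 (by simp)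
      · exact absurd (shift_inj h).1 (by simp)
      · exact congrArg Sum.inr (ψ.injective (shift_inj h).2)
  k1 := ⟨⟨⟨fun _ => .rim [], fun h => h.elim⟩, fun _ _ _ => rfl⟩⟩
  ne_univ := by
    intro h
    have : (⟨Fin 5, inferInstance, ⊤⟩ : FinGraph) ∈ rootedFans := by rw [h]; trivial
    obtain ⟨φ⟩ := this
    have a : ∀ i j : Fin 5, i ≠ j → fanTree.Adj (φ i) (φ j) := fun i j hij => φ.toHom.map_adj hij
    rcases F2 (a 0 1 (by decide)) (a 0 2 (by decide)) (a 0 3 (by decide)) (a 0 4 (by decide))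
      (a 1 2 (by decide)) (a 1 3 (by decide)) (a 1 4 (by decide)) with e | e | e <;>
    exact absurd (φ.injective e) (by decide)

end Pool.Agent.Lib.MP_b05c5f_co
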