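import Pool.Agent.Lib.MP_b05c5f_co.Strip
import Pool.Agent.Lib.MP_b05c5f_co.Lower

/-! Bounds of different slopes have no common lower bound; minimal bounds below each. -/

namespace Pool.Agent.Lib.MP_b05c5f_co

open SimpleGraph

theorem Ray.strip {S : Set ℝ} (n : ℕ) : ∀ x y, Ray S x y → ∃ (s : Finset ℝ) (t : ℕ),
    (∀ a ∈ s, a ∈ S) ∧ Strip (fun a b => U.Adj a b ∧ a ∈ s ∧ b ∈ s) x y ((x + y) / 2) n t := by
  classical
  induction n with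
  | zero =>
    intro x y h
    refine ⟨{x, y, (x + y) / 2}, 0, fun a ha => ?_, .base ⟨h.adj, by simp, by simp⟩
      ⟨U_mid h.adj, by simp, by simp⟩ ⟨U_mid' h.adj, by simp, by simp⟩⟩
    simp only [Finset.mem_insert, Finset.mem_singleton] at ha
    rcases ha with rfl | rfl | rfl
    exacts [h.left, h.right, h.mid]
  | succ n ih =>
    intro x y h
    have hne := h.adj.ne
    have key : ∀ s : Finset ℝ, (∀ a ∈ s, a ∈ S) →
        ∀ a ∈ insert x (insert y (insert ((x + y) / 2) s)), a ∈ S := by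
      intro s hs a ha
      simp only [Finset.mem_insert] at ha
      rcases ha with rfl | rfl | rfl | ha
      exacts [h.left, h.right, h.mid, hs a ha]
    rcases h.step with r | r <;> obtain ⟨s, t, h1, h2⟩ := ih _ _ r
    · exact ⟨_, t, key s h1, .str ⟨h.adj, by simp, by simp⟩ ⟨U_mid h.adj, by simp, by simp⟩
        ⟨U_mid' h.adj, by simp, by simp⟩ (fun e => hne (by linarith))
        (h2.mono fun a b e => ⟨e.1, by simp [e.2.1], by simp [e.2.2]⟩)⟩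
    · exact ⟨_, t + 1, key s h1, .trn ⟨h.adj, by simp, by simp⟩ ⟨U_mid h.adj, by simp, by simp⟩
        ⟨U_mid' h.adj, by simp, by simp⟩ (fun e => hne (by linarith))
        (h2.mono fun a b e => ⟨e.1, by simp [e.2.1], by simp [e.2.2]⟩)⟩

theorem exists_ray {S : Set ℝ} (hac : (U.between S Sᶜ).IsAcyclic) :
    ∃ x y, Ray S x y ∨ Ray Sᶜ x y := by
  have hac' : (U.between Sᶜ Sᶜᶜ).IsAcyclic := by
    rw [compl_compl, between_comm]; exact hac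
  by_cases h : ∃ x y, U.Adj x y ∧ x ∈ S ∧ y ∉ S
  · obtain ⟨x, y, hxy, hx, hy⟩ := h
    by_cases hm : (x + y) / 2 ∈ S
    · exact ⟨_, _, Or.inl (ray_of_cross hac hxy hx hy hm)⟩
    · exact ⟨_, _, Or.inr (ray_of_cross hac' hxy.symm hy (fun h' => h' hx) (by rwa [add_comm]))⟩
  · have key : ∀ T : Set ℝ, (∀ x y, U.Adj x y → x ∈ T → y ∈ T) → 0 ∈ T → Ray T 0 1 :=
      fun T hT h0 => ⟨fun x y => U.Adj x y ∧ x ∈ T, fun x y e =>
        ⟨e.1, e.2, hT _ _ e.1 e.2, Or.inl ⟨U_mid e.1, e.2⟩⟩, U01, h0⟩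
    by_cases h0 : (0 : ℝ) ∈ S
    · exact ⟨0, 1, Or.inl (key S (fun x y e hx => not_not.1 fun hy => h ⟨x, y, e, hx, hy⟩) h0)⟩
    · exact ⟨0, 1, Or.inr (key Sᶜ (fun x y e hx hy => h ⟨y, x, e.symm, hy, hx⟩) h0)⟩

theorem splitA {α : ℝ} {X : FinGraph} (h : X ∈ odot edgeless (QA α)) : ∃ I : Set X.V,
    (∀ u v, u ∈ I → v ∈ I → ¬ X.G.Adj u v) ∧ Bal α (fun a b => X.G.Adj a b ∧ a ∉ I ∧ b ∉ I) ∧
    ∀ x u a b, x ∉ I → u ∉ I → a ∈ I → b ∈ I → x ≠ u → X.G.Adj x a → X.G.Adj u a →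
      X.G.Adj x b → X.G.Adj u b → a = b := by
  classical
  obtain ⟨S, h1, h2, h3⟩ := h
  refine ⟨S, fun u v hu hv huv => ?_, fun x y m n t s => ?_,
    fun x u a b hx hu ha hb hxu xa ua xb ub => acyclic_four h3 hxu ⟨xa, Or.inr ⟨hx, ha⟩⟩
      ⟨ua.symm, Or.inl ⟨ha, hu⟩⟩ ⟨xb, Or.inr ⟨hx, hb⟩⟩ ⟨ub.symm, Or.inl ⟨hb, hu⟩⟩⟩
  · have h1' : X.G.induce S = ⊥ := h1
    have : (X.G.induce S).Adj ⟨u, hu⟩ ⟨v, hv⟩ := huv
    rw [h1'] at this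
    exact this
  · have hx : x ∉ S := s.tri.1.2.1
    refine h2 _ _ _ _ _ (s.map (T := (X.induce Sᶜ).G.Adj)
      (fun a => if ha : a ∉ S then ⟨a, ha⟩ else ⟨x, hx⟩) (fun a => a ∉ S) (fun _ _ _ e => e.2.2)
      (fun a b ha hb e => ?_) (fun a b ha hb e => ?_) hx)
    · rw [dif_pos ha, dif_pos hb]
      exact e.1
    · rw [dif_pos ha, dif_pos hb] at e
      exact congrArg Subtype.val e

theorem cone_bal {α : ℝ} (hα : 1 / 2 ≤ α) {X : FinGraph} (h : X ∈ odot edgeless (QA α)) (z : X.V)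
    (hz : ∀ a, a ≠ z → X.G.Adj z a) {x y m : X.V} {n t : ℕ} (hn : 9 ≤ n)
    (s : Strip (fun a b => X.G.Adj a b ∧ a ≠ z ∧ b ≠ z) x y m (n + 2) t) :
    |(t : ℝ) - α * n| ≤ 3 := by
  obtain ⟨I, h1, h2, h3⟩ := splitA h
  by_cases c : z ∈ I
  · exact h2 _ _ _ _ _ (s.mono fun a b e =>
      ⟨e.1, fun q => h1 _ _ c q (hz a e.2.1), fun q => h1 _ _ c q (hz b e.2.2)⟩)
  exfalso
  have A : ∀ p d m k, X.G.Adj p d → X.G.Adj p m → X.G.Adj d m → X.G.Adj p k → X.G.Adj m k →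
      p ≠ z → d ≠ z → m ≠ z → k ≠ z → k ≠ d → k ∉ I := by
    intro p d m k pd pm dm pk mk p0 d0 m0 k0 kd hk
    have hp : p ∉ I := fun q => h1 _ _ q hk pk
    have hm : m ∉ I := fun q => h1 _ _ q hk mk
    by_cases hd : d ∈ I
    · exact kd (h3 m z k d hm c hk hd m0 mk (hz k k0) dm.symm (hz d d0))
    · exact h2.k4 hα (fun _ _ e => e.1.ne) ⟨hz p p0, c, hp⟩ ⟨hz d d0, c, hd⟩ ⟨hz m m0, c, hm⟩
        ⟨pd, hp, hd⟩ ⟨dm, hd, hm⟩ ⟨pm.symm, hm, hp⟩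
  have B : ∀ n x y m t, Strip (fun a b => X.G.Adj a b ∧ a ≠ z ∧ b ≠ z) x y m (n + 1) t →
      ∃ p k r, k ∉ I ∧ k ≠ y ∧ Strip (fun a b => X.G.Adj a b ∧ a ≠ z ∧ b ≠ z) p m k n r := by
    intro n x y m t s
    obtain ⟨a1, a2, a3⟩ := s.tri
    obtain ⟨k, ⟨hk, s'⟩ | ⟨hk, r, -, s'⟩⟩ := s.succ <;> obtain ⟨-, b2, b3⟩ := s'.tri
    · exact ⟨x, k, t, A x y m k a1.1 a2.1 a3.1 b2.1 b3.1 a1.2.1 a1.2.2 a2.2.2 b2.2.2 hk, hk, s'⟩
    · exact ⟨y, k, r, A y x m k a1.1.symm a3.1 a2.1 b2.1 b3.1 a1.2.2 a1.2.1 a2.2.2 b2.2.2 hk,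
        b2.1.ne', s'⟩
  have C : ∀ n x y m t, Strip (fun a b => X.G.Adj a b ∧ a ≠ z ∧ b ≠ z) x y m n t → y ∉ I →
      m ∉ I → Strip (fun a b => X.G.Adj a b ∧ a ∉ I ∧ b ∉ I) z y m n 0 := by
    intro n
    induction n with
    | zero =>
      exact fun x y m t s hy hm => .base ⟨hz y s.tri.1.2.2, c, hy⟩ ⟨hz m s.tri.2.1.2.2, c, hm⟩
        ⟨s.tri.2.2.1, hy, hm⟩
    | succ n ih =>
      intro x y m t s hy hm
      obtain ⟨p, k, r, k1, k2, s'⟩ := B _ _ _ _ _ s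
      exact .str ⟨hz y s.tri.1.2.2, c, hy⟩ ⟨hz m s.tri.2.1.2.2, c, hm⟩ ⟨s.tri.2.2.1, hy, hm⟩ k2
        (ih _ _ _ _ s' hm k1)
  obtain ⟨p, k, r, k1, -, s1⟩ := B _ _ _ _ _ s
  obtain ⟨p', k', r', k2, -, s2⟩ := B _ _ _ _ _ s1
  obtain ⟨l, rfl⟩ : ∃ l, n = l + 2 := ⟨n - 2, by omega⟩
  exact h2.nofan hα (by omega) (C _ _ _ _ _ s2 k1 k2)

theorem force {α : ℝ} (hα : 1 / 2 ≤ α) {P Q : Set FinGraph} (hP : IsNontrivAddHered P)
    (hQ : IsNontrivAddHered Q) (hle : odot P Q ⊆ odot edgeless (QA α)) {s : Finset ℝ}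
    (hs : Ufin s ∈ Q) {x y m : ℝ} {n t : ℕ} (hn : 9 ≤ n)
    (h : Strip (fun a b => U.Adj a b ∧ a ∈ s ∧ b ∈ s) x y m (n + 2) t) :
    |(t : ℝ) - α * n| ≤ 3 := by
  classical
  refine cone_bal hα (hle (join_mem hP hQ hP.k1 hs fun _ => ())) (Sum.inl ()) ?_ hn
    (h.map (fun a => if ha : a ∈ s then Sum.inr ⟨a, ha⟩ else Sum.inl ()) (fun a => a ∈ s)
      (fun _ _ _ e => e.2.2) (fun a b ha hb e => ?_) (fun a b ha hb e => ?_) h.tri.1.2.1)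
  · rintro (a | a) ha
    exacts [absurd rfl ha, rfl]
  · rw [dif_pos ha, dif_pos hb]
    exact ⟨e.1, Sum.inr_ne_inl, Sum.inr_ne_inl⟩
  · rw [dif_pos ha, dif_pos hb] at e
    exact congrArg Subtype.val (Sum.inr.inj e)

theorem slope_eq {α β : ℝ} (hα : 1 / 2 ≤ α) (hβ : 1 / 2 ≤ β) {P Q : Set FinGraph}
    (hP : IsNontrivAddHered P) (hQ : IsNontrivAddHered Q) (h : outerplanar ⊆ odot P Q)
    (h1 : odot P Q ⊆ odot edgeless (QA α)) (h2 : odot P Q ⊆ odot edgeless (QA β)) : α = β := by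
  obtain ⟨S, s1, s2, hac⟩ := compact hP hQ h
  have key : ∀ n : ℕ, 9 ≤ n → |α - β| * n ≤ 6 := by
    intro n hn
    obtain ⟨t, a1, a2⟩ : ∃ t : ℕ, |(t : ℝ) - α * n| ≤ 3 ∧ |(t : ℝ) - β * n| ≤ 3 := by
      obtain ⟨x, y, r | r⟩ := exists_ray hac <;> obtain ⟨s, t, hs, st⟩ := Ray.strip (n + 2) x y r
      · exact ⟨t, force hα hQ hP ((odot_comm Q P).trans h1) (s1.ufin s hs) hn st,
          force hβ hQ hP ((odot_comm Q P).trans h2) (s1.ufin s hs) hn st⟩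
      · exact ⟨t, force hα hP hQ h1 (s2.ufin s hs) hn st, force hβ hP hQ h2 (s2.ufin s hs) hn st⟩
    rw [← abs_of_nonneg (Nat.cast_nonneg (α := ℝ) n), ← abs_mul]
    rw [abs_le] at a1 a2 ⊢
    exact ⟨by linarith [a1.2, a2.1], by linarith [a1.1, a2.2]⟩
  by_contra hne
  have h0 : 0 < |α - β| := abs_pos.2 (sub_ne_zero.2 hne)
  obtain ⟨n, hn⟩ := exists_nat_gt (6 / |α - β|)
  have h3 := key (n + 9) (by omega)
  rw [div_lt_iff₀ h0] at hn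
  push_cast at h3
  nlinarith

theorem odotA_ne {α : ℝ} (hα : 1 / 2 ≤ α) :
    (⟨Fin 5, inferInstance, ⊤⟩ : FinGraph) ∉ odot edgeless (QA α) := by
  intro h
  obtain ⟨I, h1, h2, -⟩ := splitA h
  obtain ⟨i, hi⟩ : ∃ i : Fin 5, ∀ j : Fin 5, j ≠ i → j ∉ I := by
    by_cases c : ∃ i, i ∈ I
    · exact c.imp fun i hi j hj q => h1 _ _ q hi hj
    · exact ⟨0, fun j _ q => c ⟨j, q⟩⟩
  have e : ∀ a b : Fin 4, a ≠ b → (⊤ : SimpleGraph (Fin 5)).Adj (i.succAbove a) (i.succAbove b) ∧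
      i.succAbove a ∉ I ∧ i.succAbove b ∉ I := fun a b hab =>
    ⟨Fin.succAbove_right_injective.ne hab, hi _ (i.succAbove_ne a), hi _ (i.succAbove_ne b)⟩
  exact h2.k4 hα (fun _ _ e => e.1.ne) (e 0 1 (by simp)) (e 0 2 (by simp)) (e 0 3 (by simp))
    (e 1 2 (by simp)) (e 2 3 (by simp)) (e 3 1 (by simp))

theorem left_sub_odot {P Q : Set FinGraph} (hP : IsNontrivAddHered P ∨ P = Set.univ)
    (hQ : ∀ X : FinGraph, IsEmpty X.V → X ∈ Q) : P ⊆ odot P Q := by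
  intro X hX
  refine ⟨Set.univ, ?_, hQ _ ⟨fun v => v.2 trivial⟩, fun v p hp => ?_⟩
  · rcases hP with hP | rfl
    · exact hP.hered X _ ⟨⟨⟨Subtype.val, fun h => h⟩, Subtype.val_injective⟩⟩ hX
    · trivial
  · obtain ⟨-, h | h⟩ := p.adj_snd hp.not_nil
    exacts [h.2 trivial, h.1 trivial]

theorem exists_min {R0 : Set FinGraph} (h0 : R0 ≠ Set.univ)
    (hR : ∃ P Q, IsNontrivAddHered P ∧ IsNontrivAddHered Q ∧ R0 = odot P Q)
    (hT : outerplanar ⊆ R0) : ∃ R ⊆ R0,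
      (∃ P Q, IsNontrivAddHered P ∧ IsNontrivAddHered Q ∧ R = odot P Q) ∧ outerplanar ⊆ R ∧
      ¬ ∃ P Q, IsNontrivAddHered P ∧ IsNontrivAddHered Q ∧ outerplanar ⊆ odot P Q ∧
        odot P Q ⊂ R := by
  refine Exists.imp (fun R h => ⟨h.1, h.2.1.2.1, h.2.1.2.2, fun ⟨P, Q, hP, hQ, h3, h4⟩ =>
    h4.2 (h.2.2 ⟨h4.1.trans h.1, ⟨P, Q, hP, hQ, rfl⟩, h3⟩ h4.1)⟩)
    (zorn_superset_nonempty {R | R ⊆ R0 ∧
      (∃ P Q, IsNontrivAddHered P ∧ IsNontrivAddHered Q ∧ R = odot P Q) ∧ outerplanar ⊆ R}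
      (fun c hc hch hne => ?_) R0 ⟨subset_rfl, hR, hT⟩)
  choose P Q hP hQ e using fun j : c => (hc j.2).2.1
  have : Nonempty c := hne.to_subtype
  have : IsCodirectedOrder c := ⟨fun a b => (hch.total a.2 b.2).elim
    (fun h => ⟨a, le_rfl, h⟩) fun h => ⟨b, h, le_rfl⟩⟩
  let 𝒰 : Ultrafilter c := Ultrafilter.of Filter.atBot
  have sub : ∀ s ∈ c, odot {X | ∀ᶠ j in 𝒰, X ∈ P j} {X | ∀ᶠ j in 𝒰, X ∈ Q j} ⊆ s := by
    rintro s hs X ⟨S, a1, a2, a3⟩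
    have a4 : ∀ᶠ j in 𝒰, j ≤ (⟨s, hs⟩ : c) :=
      Ultrafilter.of_le Filter.atBot (Filter.eventually_le_atBot _)
    obtain ⟨j, b1, b2, b3⟩ := ((Filter.Eventually.and a1 (Filter.Eventually.and a2 a4))).exists
    exact b3 (e j ▸ ⟨S, b1, b2, a3⟩ : X ∈ j.1)
  have emp : ∀ T : c → Set FinGraph, (∀ j, IsNontrivAddHered (T j)) → ∀ X : FinGraph,
      IsEmpty X.V → X ∈ {X | ∀ᶠ j in 𝒰, X ∈ T j} := fun T hT X hX =>
    Filter.Eventually.of_forall fun j => edgeless_sub (hT j) (Subsingleton.elim _ _)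
  have good : ∀ T : c → Set FinGraph, (∀ j, IsNontrivAddHered (T j)) →
      {X | ∀ᶠ j in 𝒰, X ∈ T j} ≠ Set.univ → IsNontrivAddHered {X | ∀ᶠ j in 𝒰, X ∈ T j} :=
    fun T hT hne => ⟨fun X Y h hX => Filter.Eventually.mono hX fun j => (hT j).hered X Y h,
      fun X Y hX hY => (Filter.Eventually.and hX hY).mono fun j h => (hT j).add X Y h.1 h.2,
      Filter.Eventually.of_forall fun j => (hT j).k1, hne⟩
  obtain ⟨s, hs⟩ := hne
  have sub0 := (sub s hs).trans (hc hs).1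
  refine ⟨_, ⟨sub0, ⟨_, _, good P hP fun q => h0 (Set.univ_subset_iff.1 ?_),
    good Q hQ fun q => h0 (Set.univ_subset_iff.1 ?_), rfl⟩, fun X hX => ?_⟩, sub⟩
  · exact q.ge.trans ((left_sub_odot (Or.inr q) (emp Q hQ)).trans sub0)
  · exact q.ge.trans (((left_sub_odot (Or.inr q) (emp P hP)).trans (odot_comm _ _)).trans sub0)
  · have := X.fin
    have a1 : ∀ᶠ j in 𝒰, ∃ S ∈ (Set.univ : Set (Set X.V)), X.induce S ∈ P j ∧
        X.induce Sᶜ ∈ Q j ∧ (X.G.between S Sᶜ).IsAcyclic := Filter.Eventually.of_forall fun j => by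
      obtain ⟨S, hS⟩ : X ∈ odot (P j) (Q j) := e j ▸ (hc j.2).2.2 hX
      exact ⟨S, trivial, hS⟩
    obtain ⟨S, -, hS⟩ := (Ultrafilter.eventually_exists_mem_iff Set.finite_univ).1 a1
    exact ⟨S, hS.mono fun _ h => h.1, hS.mono fun _ h => h.2.1, hS.exists.choose_spec.2.2⟩

theorem odot_hered {P Q : Set FinGraph} (hP : IsNontrivAddHered P) (hQ : IsNontrivAddHered Q)
    {X Y : FinGraph} (φ : Y.G.Copy X.G) (h : X ∈ odot P Q) : Y ∈ odot P Q := by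
  obtain ⟨S, h1, h2, h3⟩ := h
  have key : ∀ T : Set X.V, (Y.induce (φ ⁻¹' T)).G.IsContained (X.induce T).G := fun T =>
    ⟨⟨⟨fun v => ⟨φ v.1, v.2⟩, fun e => φ.toHom.map_adj e⟩,
      fun _ _ e => Subtype.ext (φ.injective (congrArg Subtype.val e))⟩⟩
  refine ⟨φ ⁻¹' S, hP.hered _ _ (key S) h1, hQ.hered _ _ (key Sᶜ) h2, ?_⟩
  exact IsAcyclic.comap (G' := X.G.between S Sᶜ) ⟨φ, fun e => ⟨φ.toHom.map_adj e.1, e.2⟩⟩
    φ.injective h3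

theorem card_le (A : Set (Set FinGraph)) (hA : ∀ R ∈ A,
    ∃ P Q, IsNontrivAddHered P ∧ IsNontrivAddHered Q ∧ R = odot P Q) :
    Cardinal.mk A ≤ Cardinal.continuum := by
  let f : A → Set (Σ n : ℕ, SimpleGraph (Fin n)) :=
    fun R => {p | (⟨Fin p.1, inferInstance, p.2⟩ : FinGraph) ∈ R.1}
  have key : ∀ R R' : A, f R = f R' → R.1 ⊆ R'.1 := by
    intro R R' e X hX
    obtain ⟨P, Q, hP, hQ, h⟩ := hA _ R.2
    obtain ⟨P', Q', hP', hQ', h'⟩ := hA _ R'.2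
    have := X.fin
    obtain ⟨n, ⟨g⟩⟩ := Finite.exists_equiv_fin X.V
    have h1 : (⟨n, X.G.map g.toEmbedding⟩ : Σ n : ℕ, SimpleGraph (Fin n)) ∈ f R := by
      rw [h] at hX
      exact h.ge (odot_hered hP hQ (Iso.map g X.G).symm.toCopy hX)
    rw [e] at h1
    exact h'.ge (odot_hered hP' hQ' (Iso.map g X.G).toCopy (h'.le h1))
  have h2 := Cardinal.lift_mk_le_lift_mk_of_injective (f := f) fun R R' e =>
    Subtype.ext ((key R R' e).antisymm (key R' R e.symm))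
  rw [Cardinal.lift_uzero, Cardinal.mk_set] at h2
  refine h2.trans ?_
  rw [← Cardinal.lift_continuum.{1, 0}, Cardinal.lift_le, ← Cardinal.two_power_aleph0]
  exact Cardinal.power_le_power_left two_ne_zero Cardinal.mk_le_aleph0

end Pool.Agent.Lib.MP_b05c5f_co
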