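import Pool.Agent.Lib.MP_b05c5f_co.Upper

/-! Strips of triangles, and colourings of the universal outerplanar graph along a word. -/

namespace Pool.Agent.Lib.MP_b05c5f_co

open SimpleGraph

/-- a strip of triangles starting with the triangle `x y m`, with `n` steps and `t` turns -/
inductive Strip {V : Type} (R : V → V → Prop) : V → V → V → ℕ → ℕ → Prop where
  | base {x y m} : R x y → R x m → R y m → Strip R x y m 0 0
  | str {x y m k n t} : R x y → R x m → R y m → k ≠ y → Strip R x m k n t →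
      Strip R x y m (n + 1) t
  | trn {x y m k n t} : R x y → R x m → R y m → k ≠ x → Strip R y m k n t →
      Strip R x y m (n + 1) (t + 1)

section

variable {V W : Type} {R : V → V → Prop} {x y m : V} {n t : ℕ}

theorem Strip.tri (h : Strip R x y m n t) : R x y ∧ R x m ∧ R y m := by
  cases h with
  | base a b c => exact ⟨a, b, c⟩
  | str a b c _ _ => exact ⟨a, b, c⟩
  | trn a b c _ _ => exact ⟨a, b, c⟩

theorem Strip.zero (h : Strip R x y m 0 t) : t = 0 := by
  cases h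
  rfl

theorem Strip.succ (h : Strip R x y m (n + 1) t) : ∃ k, (k ≠ y ∧ Strip R x m k n t) ∨
    (k ≠ x ∧ ∃ s, t = s + 1 ∧ Strip R y m k n s) := by
  cases h with
  | str _ _ _ d e => exact ⟨_, Or.inl ⟨d, e⟩⟩
  | trn _ _ _ d e => exact ⟨_, Or.inr ⟨d, _, rfl, e⟩⟩

theorem Strip.map {T : W → W → Prop} (f : V → W) (P : V → Prop)
    (hP : ∀ a b, P a → R a b → P b) (hf : ∀ a b, P a → P b → R a b → T (f a) (f b))
    (hi : ∀ a b, P a → P b → f a = f b → a = b) (h : Strip R x y m n t) (hx : P x) :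
    Strip T (f x) (f y) (f m) n t := by
  induction h with
  | base a b c =>
    exact .base (hf _ _ hx (hP _ _ hx a) a) (hf _ _ hx (hP _ _ hx b) b)
      (hf _ _ (hP _ _ hx a) (hP _ _ hx b) c)
  | str a b c d e ih =>
    exact .str (hf _ _ hx (hP _ _ hx a) a) (hf _ _ hx (hP _ _ hx b) b)
      (hf _ _ (hP _ _ hx a) (hP _ _ hx b) c)
      (fun q => d (hi _ _ (hP _ _ hx e.tri.2.1) (hP _ _ hx a) q)) (ih hx)
  | trn a b c d e ih =>
    exact .trn (hf _ _ hx (hP _ _ hx a) a) (hf _ _ hx (hP _ _ hx b) b)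
      (hf _ _ (hP _ _ hx a) (hP _ _ hx b) c)
      (fun q => d (hi _ _ (hP _ _ (hP _ _ hx a) e.tri.2.1) hx q)) (ih (hP _ _ hx a))

theorem Strip.mono {T : V → V → Prop} (hf : ∀ a b, R a b → T a b) (h : Strip R x y m n t) :
    Strip T x y m n t :=
  h.map id (fun _ => True) (fun _ _ _ _ => trivial) (fun a b _ _ => hf a b) (fun _ _ _ _ e => e)
    trivial

end

/-- all strips have about `α * n` turns -/
def Bal (α : ℝ) {V : Type} (R : V → V → Prop) : Prop :=
  ∀ x y m n t, Strip R x y m (n + 2) t → |(t : ℝ) - α * n| ≤ 3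

theorem Bal.nofan {α : ℝ} (hα : 1 / 2 ≤ α) {V : Type} {R : V → V → Prop} (h : Bal α R) {x y m n}
    (hn : 7 ≤ n) (s : Strip R x y m (n + 2) 0) : False := by
  have h1 := (abs_le.1 (h _ _ _ _ _ s)).1
  have h2 : (7 : ℝ) ≤ n := by exact_mod_cast hn
  push_cast at h1
  nlinarith

theorem Bal.k4 {α : ℝ} (hα : 1 / 2 ≤ α) {V : Type} {R : V → V → Prop} (h : Bal α R)
    (hi : ∀ a b, R a b → a ≠ b) {z a b c : V} (za : R z a) (zb : R z b) (zc : R z c) (ab : R a b)
    (bc : R b c) (ca : R c a) : False := by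
  have key : ∀ n a b c, R z a → R z b → R z c → R a b → R b c → R c a → Strip R z a b n 0 := by
    intro n
    induction n with
    | zero => exact fun a b c za zb _ ab _ _ => .base za zb ab
    | succ n ih =>
      exact fun a b c za zb zc ab bc ca => .str za zb ab (hi _ _ ca) (ih b c a zb zc za bc ca ab)
  exact h.nofan hα le_rfl (key _ a b c za zb zc ab bc ca)

/-- graphs all of whose strips are balanced -/
def QA (α : ℝ) : Set FinGraph := {X | Bal α X.G.Adj}

theorem QA_good {α : ℝ} (hα : 1 / 2 ≤ α) : IsNontrivAddHered (QA α) where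
  hered := by
    rintro X Y ⟨φ⟩ hX x y m n t h
    exact hX _ _ _ _ _ (h.map φ (fun _ => True) (fun _ _ _ _ => trivial)
      (fun _ _ _ _ e => φ.toHom.map_adj e) (fun _ _ _ _ e => φ.injective e) trivial)
  add := by
    rintro X Y hX hY (x | x) y m n t h
    · refine hX _ _ _ _ _ (h.map (Sum.elim id fun _ => x) (fun v => ∃ u, v = Sum.inl u) ?_ ?_ ?_
        ⟨x, rfl⟩)
      · rintro _ (b | b) ⟨a, rfl⟩ e
        exacts [⟨b, rfl⟩, absurd e (not_adj_sum_inl_inr a b)]
      · rintro _ _ ⟨a, rfl⟩ ⟨b, rfl⟩ e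
        exact e
      · rintro _ _ ⟨a, rfl⟩ ⟨b, rfl⟩ e
        exact congrArg Sum.inl e
    · refine hY _ _ _ _ _ (h.map (Sum.elim (fun _ => x) id) (fun v => ∃ u, v = Sum.inr u) ?_ ?_ ?_
        ⟨x, rfl⟩)
      · rintro _ (b | b) ⟨a, rfl⟩ e
        exacts [absurd e.symm (not_adj_sum_inl_inr b a), ⟨b, rfl⟩]
      · rintro _ _ ⟨a, rfl⟩ ⟨b, rfl⟩ e
        exact e
      · rintro _ _ ⟨a, rfl⟩ ⟨b, rfl⟩ e
        exact congrArg Sum.inr e
  k1 := fun _ _ _ _ _ h => h.tri.1.elim
  ne_univ := by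
    intro h
    have h1 : (⟨Fin 4, inferInstance, ⊤⟩ : FinGraph) ∈ QA α := by rw [h]; trivial
    have h2 : Bal α (⊤ : SimpleGraph (Fin 4)).Adj := h1
    exact h2.k4 hα (fun _ _ e => e) (z := 0) (a := 1) (b := 2) (c := 3) (by simp) (by simp)
      (by simp) (by simp) (by simp) (by simp)

/-- depth of a vertex -/
def dp : UV → ℕ
  | .inl false => 0
  | .inl true => 1
  | .inr u => u.length + 2

theorem dp_nw (v : List Bool) : dp (nw v) = v.length + 1 := by cases v <;> rfl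

theorem dp_old (v : List Bool) : dp (old v) ≤ v.length := by
  induction v with
  | nil => exact le_rfl
  | cons b v ih =>
    cases b
    · exact ih.trans (Nat.le_succ _)
    · exact (dp_nw v).le

theorem old_ne_nw (v : List Bool) : old v ≠ nw v := fun e => by
  have h1 := dp_nw v
  have h2 := dp_old v
  rw [e] at h2
  omega

theorem UE.low {a c : UV} (h : UE a c) (hd : dp a ≤ dp c) : ∃ v, a = old v ∧ c = nw v := by
  obtain ⟨v, h | ⟨rfl, rfl⟩⟩ := h
  · exact ⟨v, h⟩
  · have h1 := dp_nw v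
    have h2 := dp_old v
    omega

theorem UE.ne {a c : UV} (h : UE a c) : a ≠ c := by
  rintro rfl
  obtain ⟨v, h1, h2⟩ := h.low le_rfl
  exact old_ne_nw v (h1.symm.trans h2)

theorem edge_inj {u v : List Bool} (h1 : nw v = nw u) (h2 : old v = old u) : v = u := by
  rcases u with _ | ⟨b, u⟩ <;> rcases v with _ | ⟨c, v⟩ <;>
    simp only [nw, reduceCtorEq, Sum.inr.injEq] at h1
  · rfl
  · subst h1
    cases b <;> cases c
    exacts [rfl, absurd h2.symm (old_ne_nw v), absurd h2 (old_ne_nw v), rfl]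

theorem common {v : List Bool} {m : UV} (h1 : UE (old v) m) (h2 : UE (nw v) m) :
    m = .inr v ∨ ∃ b u, v = b :: u ∧ m = old ((!b) :: u) := by
  have d1 := dp_nw v
  have d2 := dp_old v
  rcases le_total (dp (nw v)) (dp m) with c | c
  · obtain ⟨p, p1, p2⟩ := h2.low c
    obtain ⟨q, q1, q2⟩ := h1.low (by omega)
    have d3 := dp_old p
    rw [← p1] at d3
    rcases p with _ | ⟨b, u⟩
    · simp only [List.length_nil] at d3
      omega
    rcases q with _ | ⟨c, u'⟩ <;> rw [p2] at q2 <;>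
      simp only [nw, reduceCtorEq, Sum.inr.injEq] at q2
    subst q2
    cases b <;> cases c
    · exact absurd (q1.trans p1.symm) (old_ne_nw v)
    · have d4 := dp_old u
      have d5 := dp_nw u
      have e1 : dp (nw v) = dp (old u) := congrArg dp p1
      have e2 : dp (old v) = dp (nw u) := congrArg dp q1
      omega
    · exact Or.inl (by rw [edge_inj (u := u) p1 q1]; exact p2)
    · exact absurd (q1.trans p1.symm) (old_ne_nw v)
  · obtain ⟨p, p1, p2⟩ := h2.symm.low c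
    rcases p with _ | ⟨b, u⟩ <;> rcases v with _ | ⟨e, v⟩ <;>
      simp only [nw, reduceCtorEq, Sum.inr.injEq] at p2
    · exact absurd p1.symm h1.ne
    · subst p2
      cases b <;> cases e
      exacts [absurd p1.symm h1.ne, Or.inr ⟨_, _, rfl, p1⟩, Or.inr ⟨_, _, rfl, p1⟩,
        absurd p1.symm h1.ne]

/-- states of an edge -/
inductive T4 : Type where
  | A
  | B
  | C
  | N (i : ℕ)

/-- transition to a child edge -/
def T4.step (w : ℕ → Bool) : T4 → Bool → T4
  | .A, false => .A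
  | .A, true => .N 0
  | .B, false => .N 0
  | .B, true => .A
  | .C, _ => .B
  | .N i, b => if b = w i then .N (i + 1) else .C

/-- the state of an edge -/
def s4 (w : ℕ → Bool) : List Bool → T4
  | [] => .B
  | b :: u => (s4 w u).step w b

/-- the independent class -/
def InI (w : ℕ → Bool) : UV → Prop
  | .inl b => b = true
  | .inr u => s4 w u = .C

variable {w : ℕ → Bool}

theorem inI_nw (v : List Bool) : InI w (nw v) ↔ s4 w v = .B := by
  rcases v with _ | ⟨b, v⟩
  · simp [InI, nw, s4]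
  · simp only [InI, nw, s4]
    cases s4 w v <;> cases b <;> simp only [T4.step, reduceCtorEq] <;> split_ifs <;> simp

theorem inI_old (v : List Bool) : InI w (old v) ↔ s4 w v = .A := by
  induction v with
  | nil => simp [InI, old, s4]
  | cons b v ih =>
    cases b <;> simp only [old, s4, ih, inI_nw] <;> cases s4 w v <;>
      simp only [T4.step, reduceCtorEq] <;> split_ifs <;> simp

theorem s4_N {v : List Bool} (h1 : ¬ InI w (old v)) (h2 : ¬ InI w (nw v))
    (h3 : ¬ InI w (.inr v)) : ∃ i, s4 w v = .N i := by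
  rw [inI_old] at h1
  rw [inI_nw] at h2
  have h4 : s4 w v ≠ .C := h3
  revert h1 h2 h4
  cases s4 w v <;> simp

theorem s4_child {v : List Bool} {b i j} (h1 : s4 w v = .N i) (h2 : s4 w (b :: v) = .N j) :
    b = w i ∧ j = i + 1 := by
  simp only [s4, h1, T4.step] at h2
  split_ifs at h2 with h
  exact ⟨h, (T4.N.inj h2).symm⟩

/-- parent function for the crossing edges -/
def par4 (w : ℕ → Bool) : UV → UV
  | .inl _ => .inl false
  | .inr u =>
    match s4 w u with
    | .A => old u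
    | .B => nw u
    | .C => old u
    | .N i => .inr ((!w i) :: u)

/-- rank for the crossing edges -/
def rk4 (w : ℕ → Bool) : UV → ℕ
  | .inl false => 0
  | .inl true => 1
  | .inr u =>
    match s4 w u with
    | .C => 2 * u.length + 1
    | _ => 2 * u.length + 4

theorem rk4_le (a : UV) : rk4 w a ≤ 2 * dp a := by
  rcases a with (_ | _) | u
  · exact le_rfl
  · exact one_le_two
  · simp only [rk4, dp]
    cases s4 w u <;> simp only <;> omega

theorem cross4 (v : List Bool) (h : InI w (old v) ∨ InI w (nw v)) :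
    (par4 w (old v) = nw v ∧ rk4 w (nw v) < rk4 w (old v)) ∨
      (par4 w (nw v) = old v ∧ rk4 w (old v) < rk4 w (nw v)) := by
  rw [inI_old, inI_nw] at h
  rcases v with _ | ⟨b, u⟩
  · exact Or.inr ⟨rfl, one_pos⟩
  have r1 := (rk4_le (w := w) (old u)).trans (Nat.mul_le_mul_left 2 (dp_old u))
  have r2 := (rk4_le (w := w) (nw u)).trans_eq (congrArg (2 * ·) (dp_nw u))
  simp only [s4] at h
  rcases hs : s4 w u with _ | _ | _ | i <;> cases b <;>
    simp only [hs, T4.step, reduceCtorEq, or_self] at h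
  · refine Or.inr ⟨by simp only [par4, nw, old, hs], lt_of_le_of_lt r1 ?_⟩
    simp only [nw, rk4, hs]
    omega
  · refine Or.inr ⟨by simp only [par4, old, hs, show nw (true :: u) = .inr u from rfl],
      lt_of_le_of_lt r2 ?_⟩
    simp only [show nw (true :: u) = .inr u from rfl, rk4, hs]
    omega
  · refine Or.inr ⟨by simp only [par4, nw, old, hs], lt_of_le_of_lt r1 ?_⟩
    simp only [nw, rk4, hs]
    omega
  · left
    rcases u with _ | ⟨c, u⟩
    · simp [s4] at hs
    have hs' := hs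
    simp only [s4] at hs'
    rcases hs2 : s4 w u with _ | _ | _ | i <;> cases c <;>
      simp only [hs2, T4.step, reduceCtorEq] at hs' <;> split_ifs at hs' with hc <;>
    · refine ⟨?_, ?_⟩
      · simp only [par4, nw, old, hs2]
        revert hc
        cases w i <;> simp
      · simp only [old, nw, rk4, hs, hs2, List.length_cons]
        omega
  · split_ifs at h <;> simp at h
  · split_ifs at h <;> simp at h

/-- edges outside the independent class -/
def RW (w : ℕ → Bool) (a b : UV) : Prop := UE a b ∧ ¬ InI w a ∧ ¬ InI w b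

theorem upperA {α : ℝ} (hB : Bal α (RW w)) : outerplanar ⊆ odot edgeless (QA α) := by
  classical
  intro X hX
  obtain ⟨g, hg, he⟩ := universal hX
  refine ⟨{v | InI w (.inr (g v))}, ?_, fun x y m n t h => hB _ _ _ _ _
    (h.map (T := RW w) (fun v => (.inr (g v.1) : UV)) (fun _ => True) (fun _ _ _ _ => trivial)
      (fun a b _ _ e => ⟨he a.1 b.1 e, a.2, b.2⟩)
      (fun _ _ _ _ e => Subtype.ext (hg (Sum.inr.inj e))) trivial), ?_⟩
  · change X.G.induce _ = ⊥
    ext ⟨u, hu⟩ ⟨v, hv⟩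
    simp only [bot_adj, iff_false]
    intro huv
    have hu' : InI w (.inr (g u)) := hu
    have hv' : InI w (.inr (g v)) := hv
    obtain ⟨p, ⟨h1, h2⟩ | ⟨h1, h2⟩⟩ := he u v huv <;> rw [h1] at hu' <;> rw [h2] at hv' <;>
      simp only [inI_old, inI_nw] at hu' hv' <;> rw [hu'] at hv' <;> cases hv'
  · let C : SimpleGraph UV :=
      { Adj := fun a b => UE a b ∧ (InI w a ∨ InI w b)
        symm.symm := fun a b h => ⟨h.1.symm, h.2.symm⟩
        loopless.irrefl := fun a h => h.1.ne rfl }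
    have hC : C.IsAcyclic := by
      apply acyclic_of_par C (par4 w) (rk4 w)
      rintro a b ⟨⟨p, ⟨rfl, rfl⟩ | ⟨rfl, rfl⟩⟩, h⟩
      · exact cross4 p h
      · exact (cross4 p h.symm).symm
    refine IsAcyclic.comap (G' := C) ⟨fun v => .inr (g v), ?_⟩ ?_ hC
    · rintro u v ⟨huv, h⟩
      exact ⟨he u v huv, h.imp (fun h => h.1) fun h => h.2⟩
    · intro u v e
      exact hg (Sum.inr.inj e)

theorem apex_eq {b : Bool} {v : List Bool} {k : UV} (h1 : RW w (old (b :: v)) k)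
    (h2 : RW w (nw (b :: v)) k) (hk : k ≠ old ((!b) :: v)) :
    k = .inr (b :: v) ∧ ∃ j, s4 w (b :: v) = .N j := by
  rcases common h1.1 h2.1 with rfl | ⟨c, u, e, rfl⟩
  · exact ⟨rfl, s4_N h1.2.1 h2.2.1 h1.2.2⟩
  · cases e
    exact absurd rfl hk

variable {F : ℕ → ℕ} (hF : ∀ i, F (i + 1) = F i + if w i then 1 else 0)
include hF

theorem go_down (n : ℕ) : ∀ t v i, s4 w v = .N i → Strip (RW w) (old v) (nw v) (.inr v) n t →
    t + F i = F (i + n) := by
  induction n with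
  | zero => exact fun t v i _ h => by rw [h.zero, zero_add, add_zero]
  | succ n ih =>
    intro t v i hv h
    have h0 := hF i
    obtain ⟨k, ⟨hk, s⟩ | ⟨hk, t', rfl, s⟩⟩ := h.succ
    · obtain ⟨rfl, j, hj⟩ := apex_eq (b := false) s.tri.2.1 s.tri.2.2 hk
      obtain ⟨e, rfl⟩ := s4_child hv hj
      have := ih t (false :: v) _ hj s
      rw [← e, if_neg (by simp)] at h0
      rw [← add_assoc, add_right_comm, ← this, h0, add_zero]
    · obtain ⟨rfl, j, hj⟩ := apex_eq (b := true) s.tri.2.1 s.tri.2.2 hk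
      obtain ⟨e, rfl⟩ := s4_child hv hj
      have := ih t' (true :: v) _ hj s
      rw [← e, if_pos rfl] at h0
      rw [← add_assoc, add_right_comm i, ← this, h0]
      omega

omit hF in
theorem step_up {v : List Bool} {i n t : ℕ} {x y m : UV} (hv : s4 w v = .N i) (hm : m ≠ .inr v)
    (hxy : (x = old v ∧ y = nw v) ∨ (x = nw v ∧ y = old v)) (h : Strip (RW w) x y m (n + 1) t) :
    ∃ u j k s, s4 w u = .N j ∧ i = j + 1 ∧ k ≠ .inr u ∧
      Strip (RW w) (old (w j :: u)) (old ((!w j) :: u)) k n s ∧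
      ((x = old v ∧ t = s) ∨ (y = old v ∧ t = s + 1)) := by
  have h1 : RW w (old v) m ∧ RW w (nw v) m := by
    rcases hxy with ⟨rfl, rfl⟩ | ⟨rfl, rfl⟩
    exacts [h.tri.2, h.tri.2.symm]
  obtain ⟨b, u, rfl, rfl⟩ := (common h1.1.1 h1.2.1).resolve_left hm
  obtain ⟨j, hj⟩ : ∃ j, s4 w u = .N j := by
    cases b
    exacts [s4_N h1.1.2.1 h1.1.2.2 h1.2.2.1, s4_N h1.1.2.2 h1.1.2.1 h1.2.2.1]
  obtain ⟨rfl, rfl⟩ := s4_child hj hv
  have bad : ∀ k s, k ≠ old (w j :: u) → ¬ Strip (RW w) (.inr u) (old ((!w j) :: u)) k n s := by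
    intro k s hk hs
    obtain ⟨-, l, hl⟩ := apex_eq (b := !w j) hs.tri.2.2 hs.tri.2.1 (by rwa [Bool.not_not])
    simpa using (s4_child hj hl).1
  obtain ⟨k, ⟨hk, s⟩ | ⟨hk, t', rfl, s⟩⟩ := h.succ <;> rcases hxy with ⟨rfl, rfl⟩ | ⟨rfl, rfl⟩
  · exact ⟨u, j, k, t, hj, rfl, hk, s, Or.inl ⟨rfl, rfl⟩⟩
  · exact absurd s (bad _ _ hk)
  · exact absurd s (bad _ _ hk)
  · exact ⟨u, j, k, t', hj, rfl, hk, s, Or.inr ⟨rfl, rfl⟩⟩

theorem go_up (n : ℕ) : ∀ t v i m, s4 w v = .N i → m ≠ .inr v →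
    Strip (RW w) (old (w i :: v)) (old ((!w i) :: v)) m n t →
    ∃ a, a + n = i + 1 ∧ t + F a = F (i + 1) := by
  induction n with
  | zero => exact fun t v i m _ _ h => ⟨i + 1, rfl, by rw [h.zero, zero_add]⟩
  | succ n ih =>
    intro t v i m hv hm h
    have h0 := hF i
    revert h h0
    cases w i <;> intro h h0
    · obtain ⟨u, j, k, s, hj, rfl, hk, hs, ⟨-, rfl⟩ | ⟨e, -⟩⟩ :=
        step_up hv hm (Or.inl ⟨rfl, rfl⟩) h
      · obtain ⟨a, a1, a2⟩ := ih _ _ _ _ hj hk hs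
        exact ⟨a, by omega, by rw [h0, a2, if_neg (by simp), add_zero]⟩
      · exact absurd e.symm (old_ne_nw v)
    · obtain ⟨u, j, k, s, hj, rfl, hk, hs, ⟨e, -⟩ | ⟨-, rfl⟩⟩ :=
        step_up hv hm (Or.inr ⟨rfl, rfl⟩) h
      · exact absurd e.symm (old_ne_nw v)
      · obtain ⟨a, a1, a2⟩ := ih _ _ _ _ hj hk hs
        exact ⟨a, by omega, by rw [h0, ← a2, if_pos rfl]; omega⟩

theorem go_any {x y m d : UV} {n t : ℕ} (h : Strip (RW w) x y m (n + 1) t) (d1 : RW w x d)
    (d2 : RW w y d) (hd : m ≠ d) : ∃ a s, s ≤ t ∧ t ≤ s + 1 ∧ s + F a = F (a + n) := by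
  obtain ⟨v, hxy⟩ := h.tri.1.1
  by_cases hm : m = .inr v
  · subst hm
    have key : ∀ (b : Bool) k s, k ≠ old ((!b) :: v) →
        Strip (RW w) (old (b :: v)) (nw (b :: v)) k n s → ∃ a, s + F a = F (a + n) := by
      intro b k s hk hs
      obtain ⟨rfl, j, hj⟩ := apex_eq hs.tri.2.1 hs.tri.2.2 hk
      exact ⟨j, go_down hF n _ _ _ hj hs⟩
    obtain ⟨k, ⟨hk, s⟩ | ⟨hk, t', rfl, s⟩⟩ := h.succ <;> rcases hxy with ⟨rfl, rfl⟩ | ⟨rfl, rfl⟩
    · exact (key false k t hk s).imp fun a ha => ⟨t, le_rfl, by omega, ha⟩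
    · exact (key true k t hk s).imp fun a ha => ⟨t, le_rfl, by omega, ha⟩
    · exact (key true k t' hk s).imp fun a ha => ⟨t', by omega, le_rfl, ha⟩
    · exact (key false k t' hk s).imp fun a ha => ⟨t', by omega, le_rfl, ha⟩
  · have h1 : RW w (old v) m ∧ RW w (nw v) m ∧ RW w (old v) d ∧ RW w (nw v) d := by
      rcases hxy with ⟨rfl, rfl⟩ | ⟨rfl, rfl⟩
      exacts [⟨h.tri.2.1, h.tri.2.2, d1, d2⟩, ⟨h.tri.2.2, h.tri.2.1, d2, d1⟩]
    obtain ⟨b, u, e1, e2⟩ := (common h1.1.1 h1.2.1.1).resolve_left hm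
    rcases common h1.2.2.1.1 h1.2.2.2.1 with rfl | ⟨c, u', e3, e4⟩
    · obtain ⟨i, hi⟩ := s4_N h1.1.2.1 h1.2.1.2.1 d1.2.2
      obtain ⟨u, j, k, s, hj, -, hk, hs, hh⟩ := step_up hi hm hxy h
      obtain ⟨a, a1, a2⟩ := go_up hF n _ _ _ _ hj hk hs
      exact ⟨a, s, by omega, by omega, by rw [a1, a2]⟩
    · rw [e1] at e3
      cases e3
      exact absurd (e2.trans e4.symm) hd

theorem go_all {x y m : UV} {n t : ℕ} (h : Strip (RW w) x y m (n + 2) t) :
    ∃ a s, s ≤ t ∧ t ≤ s + 2 ∧ s + F a = F (a + n) := by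
  have sy : ∀ {a b}, RW w a b → RW w b a := fun h => ⟨h.1.symm, h.2.2, h.2.1⟩
  obtain ⟨k, ⟨hk, s⟩ | ⟨hk, t', rfl, s⟩⟩ := h.succ
  · obtain ⟨a, r, h1, h2, h3⟩ := go_any hF s h.tri.1 (sy h.tri.2.2) hk
    exact ⟨a, r, h1, by omega, h3⟩
  · obtain ⟨a, r, h1, h2, h3⟩ := go_any hF s (sy h.tri.1) (sy h.tri.2.1) hk
    exact ⟨a, r, by omega, by omega, h3⟩

omit hF in
theorem upperQ {α : ℝ} (h0 : 0 ≤ α) (h1 : α ≤ 1) : outerplanar ⊆ odot edgeless (QA α) := by
  let F : ℕ → ℕ := fun i => ⌊α * i⌋₊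
  have p : ∀ i : ℕ, 0 ≤ α * i := fun i => mul_nonneg h0 (Nat.cast_nonneg i)
  refine upperA (w := fun i => decide (F (i + 1) = F i + 1)) fun x y m n t h => ?_
  obtain ⟨a, s, k1, k2, k3⟩ := go_all (F := F) (fun i => by
    have a1 : F i ≤ F (i + 1) := Nat.floor_mono (by push_cast; linarith)
    have a2 : F (i + 1) ≤ F i + 1 :=
      (Nat.floor_mono (by push_cast; linarith)).trans_eq (Nat.floor_add_one (p i))
    simp only [decide_eq_true_eq]
    split_ifs <;> omega) h
  have c1 : (s : ℝ) ≤ t := by exact_mod_cast k1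
  have c2 : (t : ℝ) ≤ s + 2 := by exact_mod_cast k2
  have c3 : (s : ℝ) + F a = F (a + n) := by exact_mod_cast k3
  have f1 : (F a : ℝ) ≤ α * a := Nat.floor_le (p a)
  have f2 : α * a < F a + 1 := Nat.lt_floor_add_one _
  have f3 : (F (a + n) : ℝ) ≤ α * (a + n : ℕ) := Nat.floor_le (p _)
  have f4 : α * (a + n : ℕ) < F (a + n) + 1 := Nat.lt_floor_add_one _
  push_cast at f3 f4
  exact abs_le.2 ⟨by linarith, by linarith⟩

end Pool.Agent.Lib.MP_b05c5f_co
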