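import Pool.Agent.Lib.MP_b05c5f_co.Defs

namespace Pool.Agent.Lib.MP_b05c5f_co

open SimpleGraph

/-- acyclicity from a parent function -/
theorem acyclic_of_par {V : Type*} (G : SimpleGraph V) (par : V → V) (rk : V → ℕ)
    (h : ∀ u v, G.Adj u v → (par u = v ∧ rk v < rk u) ∨ (par v = u ∧ rk u < rk v)) :
    G.IsAcyclic := by
  classical
  intro v p hp
  obtain ⟨u, hu, hmax⟩ := Finset.exists_max_image p.support.toFinset rk ⟨v, by simp⟩
  have hu' : u ∈ p.support := by simpa using hu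
  have hq : (p.rotate u hu').IsCycle := hp.rotate hu'
  set q := p.rotate u hu' with hqd
  have hsupp : ∀ x ∈ q.support, rk x ≤ rk u := by
    intro x hx
    apply hmax
    rw [hqd, Walk.mem_support_rotate_iff] at hx
    simpa using hx
  have hnil : ¬ q.Nil := hq.not_nil
  have h1 := q.adj_snd hnil
  have h2 := q.adj_penultimate hnil
  have r1 := hsupp q.snd (q.getVert_mem_support 1)
  have r2 := hsupp q.penultimate (q.getVert_mem_support _)
  have e1 : par u = q.snd := by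
    rcases h _ _ h1 with h' | h'
    · exact h'.1
    · omega
  have e2 : par u = q.penultimate := by
    rcases h _ _ h2 with h' | h'
    · omega
    · exact h'.1
  exact hq.snd_ne_penultimate (e1.symm.trans e2)

theorem acyclic_four {V : Type*} {G : SimpleGraph V} (h : G.IsAcyclic) {x u a b : V}
    (hxu : x ≠ u) (h1 : G.Adj x a) (h2 : G.Adj a u) (h3 : G.Adj x b) (h4 : G.Adj b u) : a = b := by
  have hp : ∀ {c : V} (k1 : G.Adj x c) (k2 : G.Adj c u),
      (Walk.cons k1 (Walk.cons k2 Walk.nil)).IsPath := by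
    intro c k1 k2
    simp [Walk.isPath_def, k1.ne, k2.ne, hxu]
  have := (h.subsingleton_path x u).elim ⟨_, hp h1 h2⟩ ⟨_, hp h3 h4⟩
  have h5 := congrArg (fun p : G.Path x u => p.1.getVert 1) this
  simpa using h5

theorem acyclic_of_finite {V : Type*} {G : SimpleGraph V}
    (h : ∀ s : Finset V, (G.induce (s : Set V)).IsAcyclic) : G.IsAcyclic := by
  classical
  intro v p hp
  have hw : ∀ x ∈ p.support, x ∈ ((p.support.toFinset : Finset V) : Set V) := by simp
  refine h p.support.toFinset (p.induce _ hw) ?_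
  have := Walk.map_induce p hw
  rw [← Walk.isCycle_map_iff_of_injective (f := (Embedding.induce (G := G) _).toHom)
    (Embedding.induce (G := G) _).injective]
  rw [this]
  exact hp

theorem adj_ctr {l k} {y : TV} : fanTree.Adj (.ctr l k) y ↔ y = .rim l ∨ ∃ j, y = .rim ((k, j) :: l) := by
  simp only [fanTree, fromRel_adj]
  constructor
  · rintro ⟨-, h | h⟩
    · cases h
      · exact Or.inl rfl
      · exact Or.inr ⟨_, rfl⟩
    · cases h
  · rintro (rfl | ⟨j, rfl⟩)
    · exact ⟨by simp, Or.inl (TE.root _ _)⟩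
    · exact ⟨by simp, Or.inl (TE.spoke _ _ _)⟩

theorem adj_rim {l m} : fanTree.Adj (.rim l) (.rim m) ↔
    (∃ k, m = (k, 0) :: l) ∨ (∃ k, l = (k, 0) :: m) ∨
    (∃ k j t, l = (k, j) :: t ∧ m = (k, j + 1) :: t) ∨
    (∃ k j t, m = (k, j) :: t ∧ l = (k, j + 1) :: t) := by
  simp only [fanTree, fromRel_adj]
  constructor
  · rintro ⟨-, h | h⟩
    · cases h
      · exact Or.inl ⟨_, rfl⟩
      · exact Or.inr (Or.inr (Or.inl ⟨_, _, _, rfl, rfl⟩))
    · cases h
      · exact Or.inr (Or.inl ⟨_, rfl⟩)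
      · exact Or.inr (Or.inr (Or.inr ⟨_, _, _, rfl, rfl⟩))
  · rintro (⟨k, rfl⟩ | ⟨k, rfl⟩ | ⟨k, j, t, rfl, rfl⟩ | ⟨k, j, t, rfl, rfl⟩)
    · exact ⟨by simp, Or.inl (TE.first _ _)⟩
    · exact ⟨by simp, Or.inr (TE.first _ _)⟩
    · exact ⟨by simp, Or.inl (TE.next _ _ _)⟩
    · exact ⟨by simp, Or.inr (TE.next _ _ _)⟩

theorem not_adj_ctr {l k m j} : ¬ fanTree.Adj (.ctr l k) (.ctr m j) := by
  rw [adj_ctr]; simp

/-- depth of a rim vertex -/
def mu : List (ℕ × ℕ) → ℕ
  | [] => 0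
  | (_, j) :: l => j + 1 + mu l

theorem adj_mu {l m} (h : fanTree.Adj (.rim l) (.rim m)) : mu l + 1 = mu m ∨ mu m + 1 = mu l := by
  rw [adj_rim] at h
  rcases h with ⟨k, rfl⟩ | ⟨k, rfl⟩ | ⟨k, j, t, rfl, rfl⟩ | ⟨k, j, t, rfl, rfl⟩ <;>
    simp only [mu] <;> omega

theorem rim_tri {l m n} (h1 : fanTree.Adj (.rim l) (.rim m)) (h2 : fanTree.Adj (.rim m) (.rim n))
    (h3 : fanTree.Adj (.rim l) (.rim n)) : False := by
  have := adj_mu h1
  have := adj_mu h2
  have := adj_mu h3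
  omega

theorem ctr_unique {l m s i t k} (h : fanTree.Adj (.rim l) (.rim m))
    (a1 : fanTree.Adj (.ctr s i) (.rim l)) (a2 : fanTree.Adj (.ctr s i) (.rim m))
    (b1 : fanTree.Adj (.ctr t k) (.rim l)) (b2 : fanTree.Adj (.ctr t k) (.rim m)) :
    TV.ctr s i = TV.ctr t k := by
  have hne := h.ne
  rw [adj_ctr] at a1 a2 b1 b2
  simp only [TV.rim.injEq, ne_eq] at a1 a2 b1 b2 hne
  rcases a1 with a1 | ⟨j1, a1⟩ <;> rcases a2 with a2 | ⟨j2, a2⟩ <;>
  rcases b1 with b1 | ⟨j3, b1⟩ <;> rcases b2 with b2 | ⟨j4, b2⟩ <;>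
  first
  | exact absurd (a1.trans a2.symm) hne
  | exact absurd (b1.trans b2.symm) hne
  | (have e := a1.symm.trans b1
     simp only [List.cons.injEq, Prod.mk.injEq] at e
     rw [e.1.1, e.2])
  | (have e := a2.symm.trans b2
     simp only [List.cons.injEq, Prod.mk.injEq] at e
     rw [e.1.1, e.2])
  | (exfalso
     have c1 := congrArg List.length a1
     have c2 := congrArg List.length a2
     have c3 := congrArg List.length b1
     have c4 := congrArg List.length b2
     simp only [List.length_cons] at c1 c2 c3 c4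
     omega)

/-- position on the rim of a fan -/
theorem fan_nbrs {l k} {u a b c : TV} (hu : fanTree.Adj (.ctr l k) u)
    (ha : fanTree.Adj (.ctr l k) a) (hb : fanTree.Adj (.ctr l k) b) (hc : fanTree.Adj (.ctr l k) c)
    (ua : fanTree.Adj u a) (ub : fanTree.Adj u b) (uc : fanTree.Adj u c) :
    a = b ∨ a = c ∨ b = c := by
  have key : ∀ {y : TV}, fanTree.Adj (.ctr l k) y →
      ∃ m, y = .rim m ∧ ∀ {y' : TV}, fanTree.Adj (.ctr l k) y' → ∀ m', y' = .rim m' →
        mu m' = mu m → y' = y := by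
    intro y hy
    rw [adj_ctr] at hy
    rcases hy with rfl | ⟨j, rfl⟩
    · refine ⟨_, rfl, ?_⟩
      intro y' hy' m' e hm
      rw [adj_ctr] at hy'
      rcases hy' with h | ⟨j', h⟩
      · exact h
      · rw [e] at h
        simp only [TV.rim.injEq] at h
        subst h
        simp only [mu] at hm
        omega
    · refine ⟨_, rfl, ?_⟩
      intro y' hy' m' e hm
      rw [adj_ctr] at hy'
      rcases hy' with h | ⟨j', h⟩
      · rw [e] at h
        simp only [TV.rim.injEq] at h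
        subst h
        simp only [mu] at hm
        omega
      · rw [e] at h
        simp only [TV.rim.injEq] at h
        subst h
        simp only [mu] at hm
        have : j' = j := by omega
        rw [e, this]
  obtain ⟨mu', rfl, -⟩ := key hu
  obtain ⟨ma, rfl, ka⟩ := key ha
  obtain ⟨mb, rfl, kb⟩ := key hb
  obtain ⟨mc, rfl, -⟩ := key hc
  have h1 := adj_mu ua
  have h2 := adj_mu ub
  have h3 := adj_mu uc
  by_cases e1 : mu mb = mu ma
  · exact Or.inl (ka hb _ rfl e1).symm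
  by_cases e2 : mu mc = mu ma
  · exact Or.inr (Or.inl (ka hc _ rfl e2).symm)
  exact Or.inr (Or.inr (kb hc _ rfl (by omega)).symm)

/-- an edge of the fan tree lies in at most two triangles -/
theorem F2 {x u a b c : TV} (h : fanTree.Adj x u)
    (xa : fanTree.Adj x a) (xb : fanTree.Adj x b) (xc : fanTree.Adj x c)
    (ua : fanTree.Adj u a) (ub : fanTree.Adj u b) (uc : fanTree.Adj u c) :
    a = b ∨ a = c ∨ b = c := by
  cases x with
  | ctr l k => exact fan_nbrs h xa xb xc ua ub uc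
  | rim l =>
    cases u with
    | ctr m k => exact fan_nbrs h.symm ua ub uc xa xb xc
    | rim m =>
      cases a with
      | rim s => exact (rim_tri h ua xa).elim
      | ctr s i =>
        cases b with
        | rim t => exact (rim_tri h ub xb).elim
        | ctr t k => exact Or.inl (ctr_unique h xa.symm ua.symm xb.symm ub.symm)

/-- `v` is the centre of a fan on five vertices whose rim lies in `S` -/
def Cn {V : Type*} (G : SimpleGraph V) (S : Set V) (v : V) : Prop :=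
  ∃ a b c d, a ∈ S ∧ b ∈ S ∧ c ∈ S ∧ d ∈ S ∧ G.Adj v a ∧ G.Adj v b ∧ G.Adj v c ∧ G.Adj v d ∧
    G.Adj a b ∧ G.Adj b c ∧ G.Adj c d ∧ a ≠ c ∧ a ≠ d ∧ b ≠ d

theorem not_cn_rim {l S} : ¬ Cn fanTree S (.rim l) := by
  rintro ⟨a, b, c, d, -, -, -, -, va, vb, vc, vd, ab, bc, cd, ac, ad, bd⟩
  cases b with
  | rim m =>
    cases a with
    | rim s => exact rim_tri va ab vb
    | ctr s i =>
      cases c with
      | rim t => exact rim_tri vb bc vc
      | ctr t k => exact ac (ctr_unique vb va.symm ab vc.symm bc.symm)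
  | ctr m k =>
    cases c with
    | ctr t i => exact not_adj_ctr bc
    | rim t =>
      cases d with
      | rim s => exact rim_tri vc cd vd
      | ctr s i => exact bd (ctr_unique vc vb.symm bc vd.symm cd.symm)

theorem F1 {u v : TV} {S} (h : fanTree.Adj u v) (hu : Cn fanTree S u) (hv : Cn fanTree S v) :
    False := by
  cases u with
  | rim l => exact not_cn_rim hu
  | ctr l k =>
    cases v with
    | rim m => exact not_cn_rim hv
    | ctr m j => exact not_adj_ctr h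

/-- the data of a splitting of a graph of the product of edgeless and rooted-fan graphs -/
structure Split {V : Type*} (G : SimpleGraph V) (I : Set V) (ψ : V → TV) : Prop where
  indep : ∀ u v, u ∈ I → v ∈ I → ¬ G.Adj u v
  inj : ∀ u v, u ∉ I → v ∉ I → ψ u = ψ v → u = v
  adj : ∀ u v, u ∉ I → v ∉ I → G.Adj u v → fanTree.Adj (ψ u) (ψ v)
  four : ∀ x u a b, x ∉ I → u ∉ I → a ∈ I → b ∈ I → x ≠ u → G.Adj x a → G.Adj u a → G.Adj x b →
    G.Adj u b → a = b

theorem exists_split {X : FinGraph} (h : X ∈ odot edgeless rootedFans) :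
    ∃ I ψ, Split X.G I ψ := by
  classical
  obtain ⟨S, h1, ⟨φ⟩, h3⟩ := h
  refine ⟨S, fun v => if hv : v ∈ S then TV.rim [] else φ ⟨v, hv⟩, ?_, ?_, ?_, ?_⟩
  · intro u v hu hv huv
    have h1' : X.G.induce S = ⊥ := h1
    have : (X.G.induce S).Adj ⟨u, hu⟩ ⟨v, hv⟩ := huv
    rw [h1'] at this
    exact this
  · intro u v hu hv e
    simp only [hu, hv, dite_false] at e
    have := φ.injective e
    exact congrArg Subtype.val this
  · intro u v hu hv huv
    simp only [hu, hv, dite_false]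
    exact φ.toHom.map_adj (show (X.G.induce Sᶜ).Adj ⟨u, hu⟩ ⟨v, hv⟩ from huv)
  · intro x u a b hx hu ha hb hxu xa ua xb ub
    exact acyclic_four h3 hxu ⟨xa, Or.inr ⟨hx, ha⟩⟩ ⟨ua.symm, Or.inl ⟨ha, hu⟩⟩
      ⟨xb, Or.inr ⟨hx, hb⟩⟩ ⟨ub.symm, Or.inl ⟨hb, hu⟩⟩

theorem Split.three {V : Type*} {G : SimpleGraph V} {I ψ} (s : Split G I ψ) {x u a b c : V}
    (hx : x ∉ I) (hu : u ∉ I) (ha : a ∉ I) (hb : b ∉ I) (hc : c ∉ I) (h : G.Adj x u)
    (xa : G.Adj x a) (xb : G.Adj x b) (xc : G.Adj x c)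
    (ua : G.Adj u a) (ub : G.Adj u b) (uc : G.Adj u c) (ab : a ≠ b) (ac : a ≠ c) (bc : b ≠ c) :
    False := by
  rcases F2 (s.adj _ _ hx hu h) (s.adj _ _ hx ha xa) (s.adj _ _ hx hb xb) (s.adj _ _ hx hc xc)
    (s.adj _ _ hu ha ua) (s.adj _ _ hu hb ub) (s.adj _ _ hu hc uc) with e | e | e
  · exact ab (s.inj _ _ ha hb e)
  · exact ac (s.inj _ _ ha hc e)
  · exact bc (s.inj _ _ hb hc e)

theorem Split.S1 {V : Type*} {G : SimpleGraph V} {I ψ} (s : Split G I ψ) {x u a b c d : V}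
    (hx : x ∉ I) (hu : u ∉ I) (h : G.Adj x u)
    (xa : G.Adj x a) (xb : G.Adj x b) (xc : G.Adj x c) (xd : G.Adj x d)
    (ua : G.Adj u a) (ub : G.Adj u b) (uc : G.Adj u c) (ud : G.Adj u d)
    (ab : a ≠ b) (ac : a ≠ c) (ad : a ≠ d) (bc : b ≠ c) (bd : b ≠ d) (cd : c ≠ d) : False := by
  have f : ∀ {p q}, G.Adj x p → G.Adj u p → G.Adj x q → G.Adj u q → p ≠ q → p ∈ I → q ∉ I :=
    fun h1 h2 h3 h4 ne hp hq => ne (s.four _ _ _ _ hx hu hp hq h.ne h1 h2 h3 h4)
  by_cases ha : a ∈ I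
  · exact s.three hx hu (f xa ua xb ub ab ha) (f xa ua xc uc ac ha) (f xa ua xd ud ad ha) h
      xb xc xd ub uc ud bc bd cd
  by_cases hb : b ∈ I
  · exact s.three hx hu ha (f xb ub xc uc bc hb) (f xb ub xd ud bd hb) h
      xa xc xd ua uc ud ac ad cd
  by_cases hc : c ∈ I
  · exact s.three hx hu ha hb (f xc uc xd ud cd hc) h xa xb xd ua ub ud ab ad bd
  exact s.three hx hu ha hb hc h xa xb xc ua ub uc ab ac bc

theorem Split.cn {V : Type*} {G : SimpleGraph V} {I ψ} (s : Split G I ψ) {v : V} (hv : v ∉ I)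
    (h : Cn G Iᶜ v) : Cn fanTree Set.univ (ψ v) := by
  obtain ⟨a, b, c, d, ha, hb, hc, hd, va, vb, vc, vd, ab, bc, cd, ac, ad, bd⟩ := h
  exact ⟨ψ a, ψ b, ψ c, ψ d, trivial, trivial, trivial, trivial, s.adj _ _ hv ha va,
    s.adj _ _ hv hb vb, s.adj _ _ hv hc vc, s.adj _ _ hv hd vd, s.adj _ _ ha hb ab,
    s.adj _ _ hb hc bc, s.adj _ _ hc hd cd, fun e => ac (s.inj _ _ ha hc e),
    fun e => ad (s.inj _ _ ha hd e), fun e => bd (s.inj _ _ hb hd e)⟩

theorem Split.S2 {V : Type*} {G : SimpleGraph V} {I ψ} (s : Split G I ψ) {u v : V} (hu : u ∉ I)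
    (hv : v ∉ I) (h : G.Adj u v) (cu : Cn G Iᶜ u) (cv : Cn G Iᶜ v) : False :=
  F1 (s.adj _ _ hu hv h) (s.cn hu cu) (s.cn hv cv)

/-- joining every vertex of `Y` to one vertex of `X` -/
def joinG (X Y : FinGraph) (f : Y.V → X.V) : SimpleGraph (X.V ⊕ Y.V) where
  Adj
    | .inl a, .inl b => X.G.Adj a b
    | .inr a, .inr b => Y.G.Adj a b
    | .inl a, .inr b => f b = a
    | .inr a, .inl b => f a = b
  symm.symm := by
    rintro (a | a) (b | b) h
    · exact X.G.adj_symm h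
    · exact h
    · exact h
    · exact Y.G.adj_symm h
  loopless.irrefl := by
    rintro (a | a) h
    · exact X.G.irrefl h
    · exact Y.G.irrefl h

/-- the join as a finite graph -/
def joinF (X Y : FinGraph) (f : Y.V → X.V) : FinGraph :=
  ⟨X.V ⊕ Y.V, haveI := X.fin; haveI := Y.fin; inferInstance, joinG X Y f⟩

theorem join_mem {P Q : Set FinGraph} (hP : IsNontrivAddHered P) (hQ : IsNontrivAddHered Q)
    {X Y : FinGraph} (hX : X ∈ P) (hY : Y ∈ Q) (f : Y.V → X.V) : joinF X Y f ∈ odot P Q := by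
  refine ⟨Set.range Sum.inl, ?_, ?_, ?_⟩
  · refine hP.hered X _ ⟨⟨⟨fun v => v.2.choose, ?_⟩, ?_⟩⟩ hX
    · rintro ⟨u, hu⟩ ⟨v, hv⟩ h
      have h' : (joinG X Y f).Adj u v := h
      rw [← hu.choose_spec, ← hv.choose_spec] at h'
      exact h'
    · rintro ⟨u, hu⟩ ⟨v, hv⟩ h
      have h' : hu.choose = hv.choose := h
      apply Subtype.ext
      change u = v
      rw [← hu.choose_spec, ← hv.choose_spec, h']
  · have hr : ∀ v : (Set.range (Sum.inl : X.V → X.V ⊕ Y.V))ᶜ.Elem, ∃ y, Sum.inr y = v.1 := by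
      rintro ⟨a | a, h⟩
      · exact absurd ⟨a, rfl⟩ h
      · exact ⟨a, rfl⟩
    choose g hg using hr
    refine hQ.hered Y _ ⟨⟨⟨g, ?_⟩, ?_⟩⟩ hY
    · intro u v h
      have h' : (joinG X Y f).Adj u.1 v.1 := h
      rw [← hg u, ← hg v] at h'
      exact h'
    · intro u v h
      have h' : g u = g v := h
      apply Subtype.ext
      rw [← hg u, ← hg v, h']
  · refine acyclic_of_par _ (Sum.elim Sum.inl (fun b => Sum.inl (f b)))
      (Sum.elim (fun _ => 0) (fun _ => 1)) ?_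
    rintro (a | a) (b | b) ⟨h, h'⟩
    · simp at h'
    · right
      have h2 : f b = a := h
      simp [h2]
    · left
      have h2 : f a = b := h
      simp [h2]
    · simp at h'

theorem odot_comm (P Q : Set FinGraph) : odot P Q ⊆ odot Q P := by
  rintro X ⟨S, h1, h2, h3⟩
  refine ⟨Sᶜ, h2, by rw [compl_compl]; exact h1, ?_⟩
  rw [compl_compl, between_comm]
  exact h3

end Pool.Agent.Lib.MP_b05c5f_co
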