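import Pool.Agent.Lib.MP_b05c5f_co.Tree

namespace Pool.Agent.Lib.MP_b05c5f_co

open SimpleGraph

/-- vertices of the universal outerplanar graph in the word model -/
abbrev UV : Type := Bool ⊕ List Bool

/-- the newer end of the edge coded by a word -/
def nw : List Bool → UV
  | [] => .inl true
  | _ :: w => .inr w

/-- the older end of the edge coded by a word -/
def old : List Bool → UV
  | [] => .inl false
  | false :: w => old w
  | true :: w => nw w

/-- `a`, `b` are the two ends of an edge -/
def UE (a b : UV) : Prop := ∃ w, (a = old w ∧ b = nw w) ∨ (a = nw w ∧ b = old w)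

theorem exists_split_point (E : ℝ → ℝ → Prop)
    (hE : ∀ a b c d, E a b → E c d → ¬ (a < c ∧ c < b ∧ b < d))
    (s : Finset ℝ) (x y : ℝ) (hs : ∀ t ∈ s, x < t ∧ t < y) (hne : s.Nonempty) :
    ∃ m ∈ s, ∀ c d, (c = x ∨ c ∈ s) → (d = y ∨ d ∈ s) → E c d → c < m → m < d →
      c = x ∧ d = y := by
  classical
  by_cases h : (s.filter (fun t => E x t)).Nonempty
  · obtain ⟨m, hm, hmax⟩ := Finset.exists_max_image _ id h
    rw [Finset.mem_filter] at hm
    refine ⟨m, hm.1, ?_⟩
    intro c d hc hd hcd h1 h2
    rcases hc with rfl | hc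
    · rcases hd with rfl | hd
      · exact ⟨rfl, rfl⟩
      · have := hmax d (Finset.mem_filter.2 ⟨hd, hcd⟩)
        simp only [id] at this
        linarith
    · exact absurd ⟨(hs c hc).1, h1, h2⟩ (hE _ _ _ _ hm.2 hcd)
  · obtain ⟨m, hm, hmin⟩ := Finset.exists_min_image _ id hne
    refine ⟨m, hm, ?_⟩
    intro c d hc hd hcd h1 h2
    rcases hc with rfl | hc
    · rcases hd with rfl | hd
      · exact ⟨rfl, rfl⟩
      · exact absurd ⟨d, Finset.mem_filter.2 ⟨hd, hcd⟩⟩ h
    · have := hmin c hc
      simp only [id] at this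
      linarith

theorem universal_aux (E : ℝ → ℝ → Prop)
    (hE : ∀ a b c d, E a b → E c d → ¬ (a < c ∧ c < b ∧ b < d)) (n : ℕ) :
    ∀ (s : Finset ℝ) (x y : ℝ), s.card = n → x < y → (∀ t ∈ s, x < t ∧ t < y) →
      ∀ (w : List Bool) (o : Bool), ∃ g : ℝ → UV,
        g x = (if o then old w else nw w) ∧ g y = (if o then nw w else old w) ∧
        (∀ t ∈ s, ∃ w', g t = .inr (w' ++ w)) ∧ (∀ t ∈ s, ∀ t' ∈ s, g t = g t' → t = t') ∧
        ∀ u v, (u = x ∨ u ∈ s) → (v = y ∨ v ∈ s) → u < v → E u v → UE (g u) (g v) := by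
  classical
  induction n using Nat.strong_induction_on with
  | _ n ih =>
    intro s x y hcard hxy hs w o
    by_cases hne : s.Nonempty
    swap
    · rw [Finset.not_nonempty_iff_eq_empty] at hne
      subst hne
      refine ⟨fun t => if t = x then (if o then old w else nw w) else (if o then nw w else old w),
        by simp, by simp [hxy.ne'], by simp, by simp, ?_⟩
      intro u v hu hv _ _
      simp only [Finset.notMem_empty, or_false] at hu hv
      subst hu hv
      simp only [hxy.ne', if_true, if_false]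
      cases o
      · exact ⟨w, Or.inr ⟨by simp, by simp⟩⟩
      · exact ⟨w, Or.inl ⟨by simp, by simp⟩⟩
    obtain ⟨m, hm, hsplit⟩ := exists_split_point E hE s x y hs hne
    have c1 : (s.filter (· < m)).card < n := by
      rw [← hcard]
      apply Finset.card_lt_card
      rw [Finset.ssubset_iff_of_subset (Finset.filter_subset _ _)]
      exact ⟨m, hm, by simp⟩
    have c2 : (s.filter (m < ·)).card < n := by
      rw [← hcard]
      apply Finset.card_lt_card
      rw [Finset.ssubset_iff_of_subset (Finset.filter_subset _ _)]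
      exact ⟨m, hm, by simp⟩
    obtain ⟨g1, a1, b1, d1, i1, e1⟩ := ih _ c1 (s.filter (· < m)) x m rfl (hs m hm).1
      (fun t ht => by rw [Finset.mem_filter] at ht; exact ⟨(hs t ht.1).1, ht.2⟩) ((!o) :: w) true
    obtain ⟨g2, a2, b2, d2, i2, e2⟩ := ih _ c2 (s.filter (m < ·)) m y rfl (hs m hm).2
      (fun t ht => by rw [Finset.mem_filter] at ht; exact ⟨ht.2, (hs t ht.1).2⟩) (o :: w) false
    simp only [if_true, Bool.false_eq_true, if_false] at a1 b1 a2 b2
    have hm1 : g1 m = .inr w := by rw [b1]; rfl
    have hm2 : g2 m = .inr w := by rw [a2]; rfl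
    have hxm := (hs m hm).1
    have hmy := (hs m hm).2
    have gx : g1 x = (if o then old w else nw w) := by
      rw [a1]; cases o <;> rfl
    have gy : g2 y = (if o then nw w else old w) := by
      rw [b2]; cases o <;> rfl
    have cases3 : ∀ t ∈ s, (t < m ∧ ∃ w', g1 t = .inr (w' ++ (!o) :: w)) ∨ (t = m) ∨
        (m < t ∧ ∃ w', g2 t = .inr (w' ++ o :: w)) := by
      intro t ht
      rcases lt_trichotomy t m with h | h | h
      · exact Or.inl ⟨h, d1 t (Finset.mem_filter.2 ⟨ht, h⟩)⟩
      · exact Or.inr (Or.inl h)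
      · exact Or.inr (Or.inr ⟨h, d2 t (Finset.mem_filter.2 ⟨ht, h⟩)⟩)
    have hne1 : ∀ (w' : List Bool) (b : Bool), w' ++ b :: w ≠ w := by
      intro w' b h
      have := congrArg List.length h
      simp at this
      omega
    have hne2 : ∀ (w' w'' : List Bool), w' ++ (!o) :: w ≠ w'' ++ o :: w := by
      intro w' w'' h
      have hl := congrArg List.length h
      simp only [List.length_append, List.length_cons] at hl
      have := (List.append_inj h (by omega)).2
      simp at this
    refine ⟨fun t => if t ≤ m then g1 t else g2 t, by simp [hxm.le, gx], by simp [hmy.not_ge, gy],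
      ?_, ?_, ?_⟩
    · intro t ht
      rcases cases3 t ht with ⟨h, w', e⟩ | rfl | ⟨h, w', e⟩
      · exact ⟨w' ++ [!o], by simp [h.le, e]⟩
      · exact ⟨[], by simp [hm1]⟩
      · exact ⟨w' ++ [o], by simp [h.not_ge, e]⟩
    · intro t ht t' ht' hg
      rcases cases3 t ht with ⟨h, w', e⟩ | h | ⟨h, w', e⟩ <;>
      rcases cases3 t' ht' with ⟨h', w'', e'⟩ | h' | ⟨h', w'', e'⟩
      · simp only [h.le, h'.le, if_true] at hg
        exact i1 t (Finset.mem_filter.2 ⟨ht, h⟩) t' (Finset.mem_filter.2 ⟨ht', h'⟩) hg
      · simp only [h.le, h', le_refl, if_true, e, hm1, Sum.inr.injEq] at hg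
        exact absurd hg (hne1 _ _)
      · simp only [h.le, h'.not_ge, if_true, if_false, e, e', Sum.inr.injEq] at hg
        exact absurd hg (hne2 _ _)
      · simp only [h'.le, h, le_refl, if_true, e', hm1, Sum.inr.injEq] at hg
        exact absurd hg.symm (hne1 _ _)
      · rw [h, h']
      · simp only [h'.not_ge, h, le_refl, if_true, if_false, e', hm1, Sum.inr.injEq] at hg
        exact absurd hg.symm (hne1 _ _)
      · simp only [h'.le, h.not_ge, if_true, if_false, e, e', Sum.inr.injEq] at hg
        exact absurd hg.symm (hne2 _ _)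
      · simp only [h.not_ge, h', le_refl, if_true, if_false, e, hm1, Sum.inr.injEq] at hg
        exact absurd hg (hne1 _ _)
      · simp only [h.not_ge, h'.not_ge, if_false] at hg
        exact i2 t (Finset.mem_filter.2 ⟨ht, h⟩) t' (Finset.mem_filter.2 ⟨ht', h'⟩) hg
    · intro u v hu hv huv hE'
      by_cases hvm : v ≤ m
      · have hum : u < m := lt_of_lt_of_le huv hvm
        simp only [hvm, hum.le, if_true]
        apply e1 u v _ _ huv hE'
        · rcases hu with h | h
          · exact Or.inl h
          · exact Or.inr (Finset.mem_filter.2 ⟨h, hum⟩)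
        · rcases hv with h | h
          · rw [h] at hvm; linarith
          · rcases hvm.lt_or_eq with h' | h'
            · exact Or.inr (Finset.mem_filter.2 ⟨h, h'⟩)
            · exact Or.inl h'
      · push Not at hvm
        by_cases hum : u < m
        · obtain ⟨rfl, rfl⟩ := hsplit u v hu hv hE' hum hvm
          simp only [hum.le, hvm.not_ge, if_true, if_false, gx, gy]
          cases o
          · exact ⟨w, Or.inr ⟨by simp, by simp⟩⟩
          · exact ⟨w, Or.inl ⟨by simp, by simp⟩⟩
        · push Not at hum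
          have hu2 : (if u ≤ m then g1 u else g2 u) = g2 u := by
            rcases hum.lt_or_eq with h | h
            · simp [h.not_ge]
            · rw [← h]; simp [hm1, hm2]
          simp only [hvm.not_ge, if_false, hu2]
          apply e2 u v _ _ huv hE'
          · rcases hum.lt_or_eq with h' | h'
            · rcases hu with h | h
              · rw [h] at hum; linarith
              · exact Or.inr (Finset.mem_filter.2 ⟨h, h'⟩)
            · exact Or.inl h'.symm
          · rcases hv with h | h
            · exact Or.inl h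
            · exact Or.inr (Finset.mem_filter.2 ⟨h, hvm⟩)

theorem UE.symm {a b : UV} (h : UE a b) : UE b a := by
  obtain ⟨w, h | h⟩ := h
  · exact ⟨w, Or.inr ⟨h.2, h.1⟩⟩
  · exact ⟨w, Or.inl ⟨h.2, h.1⟩⟩

theorem universal {X : FinGraph} (h : X ∈ outerplanar) :
    ∃ (g : X.V → List Bool), Function.Injective g ∧
      ∀ u v, X.G.Adj u v → UE (.inr (g u)) (.inr (g v)) := by
  classical
  obtain ⟨f, hf, hc⟩ := h
  have := X.fin
  have := Fintype.ofFinite X.V
  obtain ⟨B, hB⟩ := ((Finset.univ.image f).image (fun t => |t|)).exists_le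
  have hB' : ∀ v, |f v| ≤ B := fun v => hB _ (by simp)
  obtain ⟨g, -, -, d, i, e⟩ := universal_aux (fun a b => ∃ u v, X.G.Adj u v ∧ f u = a ∧ f v = b)
    (by
      rintro a b c d ⟨u, v, h1, rfl, rfl⟩ ⟨u', v', h2, rfl, rfl⟩
      exact hc _ _ _ _ h1 h2) _ (Finset.univ.image f) (-|B| - 1) (|B| + 1) rfl
    (by have := abs_nonneg B; linarith)
    (by
      intro t ht
      obtain ⟨v, -, rfl⟩ := Finset.mem_image.1 ht
      have := abs_le.1 (hB' v)
      have := le_abs_self B
      constructor <;> linarith) [] true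
  have hm : ∀ v, f v ∈ Finset.univ.image f := fun v => by simp
  choose w hw using fun v => d (f v) (hm v)
  simp only [List.append_nil] at hw
  refine ⟨w, ?_, ?_⟩
  · intro u v huv
    apply hf
    apply i _ (hm u) _ (hm v)
    rw [hw, hw, huv]
  · intro u v huv
    rw [← hw, ← hw]
    rcases lt_trichotomy (f u) (f v) with h | h | h
    · exact e _ _ (Or.inr (hm u)) (Or.inr (hm v)) h ⟨u, v, huv, rfl, rfl⟩
    · exact absurd (hf h) huv.ne
    · exact (e _ _ (Or.inr (hm v)) (Or.inr (hm u)) h ⟨v, u, huv.symm, rfl, rfl⟩).symm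

/-- states of an edge: (kind of older end, kind of newer end) with positions in the fan tree -/
inductive St : Type where
  | RI (l : List (ℕ × ℕ))
  | IR (l : List (ℕ × ℕ))
  | RC (l : List (ℕ × ℕ)) (k : ℕ)
  | IC (l : List (ℕ × ℕ)) (k : ℕ)
  | CR (l : List (ℕ × ℕ)) (k j : ℕ)
  | RR (l m : List (ℕ × ℕ))

/-- transition to a child edge -/
def St.step (N e : ℕ) : St → Bool → St
  | .RI l, false => .RC l e
  | .RI l, true => .IC l e
  | .IR l, false => .IC l e
  | .IR l, true => .RC l e
  | .RC l k, false => .RR l ((k, 0) :: l)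
  | .RC l k, true => .CR l k 0
  | .IC l k, false => .IR ((k, N) :: l)
  | .IC l k, true => .CR l k N
  | .CR l k j, false => .CR l k (j + 1)
  | .CR l k j, true => .RR ((k, j) :: l) ((k, j + 1) :: l)
  | .RR l _, false => .RI l
  | .RR _ m, true => .RI m

/-- the state of an edge -/
def st (N : ℕ) : List Bool → St
  | [] => .RI []
  | b :: w => (st N w).step N (Encodable.encode w) b

/-- image of the older end -/
def St.oldI : St → Option TV
  | .RI l => some (.rim l)
  | .IR _ => none
  | .RC l _ => some (.rim l)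
  | .IC _ _ => none
  | .CR l k _ => some (.ctr l k)
  | .RR l _ => some (.rim l)

/-- image of the newer end -/
def St.newI : St → Option TV
  | .RI _ => none
  | .IR l => some (.rim l)
  | .RC l k => some (.ctr l k)
  | .IC l k => some (.ctr l k)
  | .CR l k j => some (.rim ((k, j) :: l))
  | .RR _ m => some (.rim m)

/-- image of the apex -/
def St.apex (N e : ℕ) : St → Option TV
  | .RI l => some (.ctr l e)
  | .IR l => some (.ctr l e)
  | .RC l k => some (.rim ((k, 0) :: l))
  | .IC l k => some (.rim ((k, N) :: l))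
  | .CR l k j => some (.rim ((k, j + 1) :: l))
  | .RR _ _ => none

/-- image of a vertex in the fan tree, `none` for the independent part -/
def img (N : ℕ) : UV → Option TV
  | .inl false => some (.rim [])
  | .inl true => none
  | .inr w => (st N w).apex N (Encodable.encode w)

theorem img_nw (N : ℕ) (w : List Bool) : img N (nw w) = (st N w).newI := by
  cases w with
  | nil => rfl
  | cons b w =>
    simp only [nw, img, st]
    cases st N w <;> cases b <;> rfl

theorem img_old (N : ℕ) (w : List Bool) : img N (old w) = (st N w).oldI := by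
  induction w with
  | nil => rfl
  | cons b w ih =>
    cases b
    · simp only [old, st, ih]
      cases st N w <;> rfl
    · simp only [old, st, img_nw]
      cases st N w <;> rfl

theorem st_RR (N : ℕ) (w : List Bool) {l m} (h : st N w = .RR l m) :
    fanTree.Adj (.rim l) (.rim m) := by
  cases w with
  | nil => simp [st] at h
  | cons b w =>
    simp only [st] at h
    revert h
    cases st N w <;> cases b <;> simp only [St.step, reduceCtorEq, false_imp_iff, St.RR.injEq]
    · rintro ⟨rfl, rfl⟩
      exact adj_rim.2 (Or.inl ⟨_, rfl⟩)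
    · rintro ⟨rfl, rfl⟩
      exact adj_rim.2 (Or.inr (Or.inr (Or.inl ⟨_, _, _, rfl, rfl⟩)))

theorem img_adj (N : ℕ) (w : List Bool) {a b} (ha : img N (old w) = some a)
    (hb : img N (nw w) = some b) : fanTree.Adj a b := by
  rw [img_old] at ha
  rw [img_nw] at hb
  have := @st_RR N w
  revert ha hb this
  cases st N w <;> simp only [St.oldI, St.newI, reduceCtorEq, false_imp_iff, Option.some.injEq,
    implies_true]
  · rintro rfl rfl -
    exact (adj_ctr.2 (Or.inl rfl)).symm
  · rintro rfl rfl -
    exact adj_ctr.2 (Or.inr ⟨_, rfl⟩)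
  · rintro rfl rfl h
    exact h rfl

theorem img_indep (N : ℕ) (w : List Bool) (ha : img N (old w) = none)
    (hb : img N (nw w) = none) : False := by
  rw [img_old] at ha
  rw [img_nw] at hb
  revert ha hb
  cases st N w <;> simp [St.oldI, St.newI]

/-- the bit leading from the edge where a centre is created to its first ray -/
def beta (N : ℕ) (w : List Bool) : Bool :=
  match st N w with
  | .RI _ => false
  | _ => true

/-- invariant recovering the word from the state -/
def Inv (N : ℕ) (w : List Bool) : St → Prop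
  | .RC _ k => ∃ w0, k = Encodable.encode w0 ∧ w = beta N w0 :: w0
  | .IC _ k => ∃ w0, k = Encodable.encode w0 ∧ w = (!beta N w0) :: w0
  | .CR _ k j => ∃ w0, k = Encodable.encode w0 ∧
      (w = List.replicate j false ++ true :: beta N w0 :: w0 ∨
        (N ≤ j ∧ w = List.replicate (j - N) false ++ true :: (!beta N w0) :: w0))
  | _ => True

theorem inv_st (N : ℕ) (w : List Bool) : Inv N w (st N w) := by
  induction w with
  | nil => trivial
  | cons b w ih =>
    simp only [st]
    have hb : beta N w = match st N w with | .RI _ => false | _ => true := rfl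
    revert ih hb
    cases st N w <;> cases b <;> simp only [St.step, Inv, implies_true]
    · intro _ hb; exact ⟨w, rfl, by rw [hb]⟩
    · intro _ hb; exact ⟨w, rfl, by rw [hb]; rfl⟩
    · intro _ hb; exact ⟨w, rfl, by rw [hb]; rfl⟩
    · intro _ hb; exact ⟨w, rfl, by rw [hb]⟩
    · rintro ⟨w0, h1, h2⟩ -
      exact ⟨w0, h1, Or.inl (by rw [h2]; rfl)⟩
    · rintro ⟨w0, h1, h2⟩ -
      exact ⟨w0, h1, Or.inr ⟨le_rfl, by rw [h2]; simp⟩⟩
    · rintro ⟨w0, h1, h2 | ⟨h2, h3⟩⟩ -
      · exact ⟨w0, h1, Or.inl (by rw [h2]; rfl)⟩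
      · refine ⟨w0, h1, Or.inr ⟨by omega, ?_⟩⟩
        rw [h3, Nat.succ_sub h2]
        rfl

/-- the word of the apex sent to position `j` of the fan created at `w0` -/
def dec (N : ℕ) (w0 : List Bool) (j : ℕ) : List Bool :=
  if j = 0 then beta N w0 :: w0 else if j < N then
    List.replicate (j - 1) false ++ true :: beta N w0 :: w0
  else if j = N then (!beta N w0) :: w0
  else List.replicate (j - 1 - N) false ++ true :: (!beta N w0) :: w0

theorem img_inr (N : ℕ) (w : List Bool) (hw : w.length < N) {a} (h : img N (.inr w) = some a) :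
    (∃ l, a = .ctr l (Encodable.encode w)) ∨
      ∃ w0 j l, a = .rim ((Encodable.encode w0, j) :: l) ∧ w = dec N w0 j := by
  have hi := inv_st N w
  simp only [img] at h
  revert hi h
  cases st N w <;> simp only [St.apex, Inv, Option.some.injEq, reduceCtorEq, false_imp_iff]
  · rintro rfl -
    exact Or.inl ⟨_, rfl⟩
  · rintro rfl -
    exact Or.inl ⟨_, rfl⟩
  · rintro rfl ⟨w0, rfl, h2⟩
    exact Or.inr ⟨w0, 0, _, rfl, by simp [dec, h2]⟩
  · rintro rfl ⟨w0, rfl, h2⟩
    refine Or.inr ⟨w0, N, _, rfl, ?_⟩
    have : N ≠ 0 := by omega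
    simp [dec, h2, this]
  · rename_i l k j
    rintro rfl ⟨w0, rfl, h2 | ⟨h2, h3⟩⟩
    · refine Or.inr ⟨w0, j + 1, _, rfl, ?_⟩
      have hl := congrArg List.length h2
      simp only [List.length_append, List.length_replicate, List.length_cons] at hl
      have : j + 1 < N := by omega
      simp [dec, h2, this]
    · refine Or.inr ⟨w0, j + 1, _, rfl, ?_⟩
      have h4 : ¬ j + 1 < N := by omega
      have h5 : j + 1 ≠ N := by omega
      simp [dec, h3, h4, h5]

theorem img_inj (N : ℕ) (w w' : List Bool) (hw : w.length < N) (hw' : w'.length < N) {a}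
    (h : img N (.inr w) = some a) (h' : img N (.inr w') = some a) : w = w' := by
  rcases img_inr N w hw h with ⟨l, e⟩ | ⟨w0, j, l, e, d⟩ <;>
  rcases img_inr N w' hw' h' with ⟨l', e'⟩ | ⟨w0', j', l', e', d'⟩
  · rw [e] at e'
    simp only [TV.ctr.injEq] at e'
    exact Encodable.encode_injective e'.2
  · rw [e] at e'; cases e'
  · rw [e] at e'; cases e'
  · rw [e] at e'
    simp only [TV.rim.injEq, List.cons.injEq, Prod.mk.injEq] at e'
    rw [d, d', Encodable.encode_injective e'.1.1, e'.1.2]

/-- parent function for the crossing edges -/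
def par (N : ℕ) : UV → UV
  | .inl _ => .inl false
  | .inr w =>
    match st N w with
    | .RR _ _ => old w
    | .RI _ => nw w
    | .IR _ => old w
    | .IC _ _ => old w
    | .RC _ _ => .inr (false :: w)
    | .CR _ _ _ => .inr (true :: w)

/-- rank for the crossing edges -/
def rk (N : ℕ) : UV → ℕ
  | .inl false => 0
  | .inl true => 1
  | .inr w =>
    match st N w with
    | .RR _ _ => 2 * w.length + 1
    | _ => 2 * w.length + 4

theorem rk_inr (N : ℕ) (w : List Bool) : rk N (.inr w) ≤ 2 * w.length + 4 := by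
  simp only [rk]
  cases st N w <;> simp

theorem rk_nw (N : ℕ) (w : List Bool) : rk N (nw w) ≤ 2 * w.length + 2 := by
  cases w with
  | nil => simp [nw, rk]
  | cons b w =>
    have := rk_inr N w
    simp only [nw, List.length_cons]
    omega

theorem rk_old (N : ℕ) (w : List Bool) : rk N (old w) ≤ 2 * w.length := by
  induction w with
  | nil => simp [old, rk]
  | cons b w ih =>
    have := rk_nw N w
    cases b <;> simp only [old, List.length_cons] <;> omega

theorem cross_par (N : ℕ) (w : List Bool) (h : img N (old w) = none ∨ img N (nw w) = none) :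
    (par N (old w) = nw w ∧ rk N (nw w) < rk N (old w)) ∨
      (par N (nw w) = old w ∧ rk N (old w) < rk N (nw w)) := by
  rw [img_old, img_nw] at h
  cases w with
  | nil => right; simp [par, nw, old, rk]
  | cons b w =>
    have r1 := rk_old N w
    have r2 := rk_nw N w
    simp only [st] at h
    rcases hs : st N w with l | l | ⟨l, k⟩ | ⟨l, k⟩ | ⟨l, k, j⟩ | ⟨l, m⟩ <;> cases b <;>
      simp only [hs, St.step, St.oldI, St.newI, reduceCtorEq, or_self] at h
    · right
      refine ⟨by simp [par, nw, old, hs], ?_⟩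
      simp only [old]
      simp only [nw, rk, hs]
      exact lt_of_le_of_lt r2 (by omega)
    · right
      refine ⟨by simp [par, nw, old, hs], ?_⟩
      simp only [old]
      simp only [nw, rk, hs]
      exact lt_of_le_of_lt r1 (by omega)
    · right
      refine ⟨by simp [par, nw, old, hs], ?_⟩
      simp only [old]
      simp only [nw, rk, hs]
      exact lt_of_le_of_lt r1 (by omega)
    · right
      refine ⟨by simp [par, nw, old, hs], ?_⟩
      simp only [old]
      simp only [nw, rk, hs]
      exact lt_of_le_of_lt r1 (by omega)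
    · left
      cases w with
      | nil => simp [st] at hs
      | cons c w =>
        have hs' := hs
        simp only [st] at hs'
        rcases hs2 : st N w with l | l | ⟨l, k⟩ | ⟨l, k⟩ | ⟨l, k, j⟩ | ⟨l, m⟩ <;> cases c <;>
          simp only [hs2, St.step, reduceCtorEq] at hs'
        · refine ⟨by simp [par, nw, old, hs2], ?_⟩
          simp only [old, nw, rk, hs, hs2, List.length_cons]
          omega
        · refine ⟨by simp [par, nw, old, hs2], ?_⟩
          simp only [old, nw, rk, hs, hs2, List.length_cons]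
          omega

theorem upper : outerplanar ⊆ odot edgeless rootedFans := by
  classical
  intro X hX
  obtain ⟨g, hg, he⟩ := universal hX
  have := X.fin
  have := Fintype.ofFinite X.V
  obtain ⟨B, hB⟩ := (Finset.univ.image (fun v => (g v).length)).exists_le
  have hN : ∀ v, (g v).length < B + 1 := fun v => Nat.lt_succ_of_le (hB _ (by simp))
  set N := B + 1
  refine ⟨{v | img N (.inr (g v)) = none}, ?_, ⟨⟨⟨fun v => (img N (.inr (g v.1))).getD (.rim []),
    ?_⟩, ?_⟩⟩, ?_⟩
  · change X.G.induce _ = ⊥
    ext ⟨u, hu⟩ ⟨v, hv⟩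
    simp only [bot_adj, iff_false]
    intro huv
    obtain ⟨w, ⟨h1, h2⟩ | ⟨h1, h2⟩⟩ := he u v huv
    · exact img_indep N w (h1 ▸ hu) (h2 ▸ hv)
    · exact img_indep N w (h2 ▸ hv) (h1 ▸ hu)
  · rintro ⟨u, hu⟩ ⟨v, hv⟩ huv
    obtain ⟨a, ha⟩ := Option.ne_none_iff_exists'.1 hu
    obtain ⟨b, hb⟩ := Option.ne_none_iff_exists'.1 hv
    simp only [ha, hb, Option.getD_some]
    obtain ⟨w, ⟨h1, h2⟩ | ⟨h1, h2⟩⟩ := he u v huv
    · exact img_adj N w (h1 ▸ ha) (h2 ▸ hb)
    · exact (img_adj N w (h2 ▸ hb) (h1 ▸ ha)).symm
  · rintro ⟨u, hu⟩ ⟨v, hv⟩ huv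
    obtain ⟨a, ha⟩ := Option.ne_none_iff_exists'.1 hu
    obtain ⟨b, hb⟩ := Option.ne_none_iff_exists'.1 hv
    have huv' : (img N (.inr (g u))).getD (.rim []) = (img N (.inr (g v))).getD (.rim []) := huv
    simp only [ha, hb, Option.getD_some] at huv'
    subst huv'
    exact Subtype.ext (hg (img_inj N _ _ (hN u) (hN v) ha hb))
  · let C : SimpleGraph UV :=
      { Adj := fun a b => a ≠ b ∧ UE a b ∧ (img N a = none ∨ img N b = none)
        symm.symm := fun a b h => ⟨h.1.symm, h.2.1.symm, h.2.2.symm⟩
        loopless.irrefl := fun a h => h.1 rfl }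
    have hC : C.IsAcyclic := by
      apply acyclic_of_par C (par N) (rk N)
      rintro a b ⟨-, ⟨w, ⟨rfl, rfl⟩ | ⟨rfl, rfl⟩⟩, h⟩
      · exact cross_par N w h
      · exact (cross_par N w h.symm).symm
    refine IsAcyclic.comap (G' := C) ⟨fun v => .inr (g v), ?_⟩ ?_ hC
    · rintro u v ⟨huv, h⟩
      refine ⟨fun e => huv.ne (hg (Sum.inr.inj e)), he u v huv, ?_⟩
      rcases h with h | h
      · exact Or.inl h.1
      · exact Or.inr h.2
    · intro u v e
      exact hg (Sum.inr.inj e)

end Pool.Agent.Lib.MP_b05c5f_co
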